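import Mathlib

/-!
# Hodge numbers, E-polynomials and derived equivalence
-/

set_option autoImplicit false

open AddMonoidAlgebra Finset

namespace Pool.Agent.H378.HN

/-- Smooth projective complex varieties `V` (up to isomorphism) with their dimensions, their Hodge numbers
`h^{p,q}` and the relation of derived equivalence. -/
structure HodgeData (V : Type) where
  /-- the dimension -/
  dim : V → ℕ
  /-- the Hodge numbers -/
  h : V → ℕ → ℕ → ℕ
  /-- derived equivalence -/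
  deq : V → V → Prop

/-- The monomial `x ^ i * y ^ j` of the ring `ℤ[x, x⁻¹, y, y⁻¹]`. -/
noncomputable def xy (i j : ℤ) : AddMonoidAlgebra ℤ (ℤ × ℤ) := single (i, j) 1

variable {V : Type}

/-- `E(X; x ^ k, y ^ k)` for the E-polynomial `E(X; x, y) = ∑ (-1) ^ (p + q) h^{p,q}(X) x ^ p y ^ q`. -/
noncomputable def HodgeData.Ek (D : HodgeData V) (k : ℕ) (X : V) : AddMonoidAlgebra ℤ (ℤ × ℤ) :=
  ∑ p ∈ range (D.dim X + 1), ∑ q ∈ range (D.dim X + 1),
    ((-1) ^ (p + q) * (D.h X p q : ℤ)) • xy (k * p) (k * q)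

/-- The E-polynomial (Hodge–Deligne polynomial) `∑ (-1) ^ (p + q) h^{p,q}(X) x ^ p y ^ q`. -/
noncomputable def HodgeData.E (D : HodgeData V) (X : V) : AddMonoidAlgebra ℤ (ℤ × ℤ) := D.Ek 1 X

/-- The sum of the Hodge numbers `h^{p,q}` with `p - q = i`, the dimension of the Hochschild homology
`HH_i(X)`. -/
def HodgeData.HH (D : HodgeData V) (X : V) (i : ℤ) : ℕ :=
  ∑ p ∈ range (D.dim X + 1), ∑ q ∈ range (D.dim X + 1), if (p : ℤ) - q = i then D.h X p q else 0

/-- The standard facts on Hodge numbers and derived equivalences of smooth projective varieties (the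
product of `V` is the product of varieties). -/
structure IsHodge [CommMonoid V] (D : HodgeData V) : Prop where
  /-- varieties are connected -/
  conn : ∀ X, D.h X 0 0 = 1
  /-- `h^{p,q} = 0` outside the Hodge diamond -/
  supp : ∀ X p q, (D.dim X < p ∨ D.dim X < q) → D.h X p q = 0
  /-- Hodge symmetry -/
  symm : ∀ X p q, D.h X p q = D.h X q p
  /-- Serre duality -/
  serre : ∀ X p q, p ≤ D.dim X → q ≤ D.dim X → D.h X (D.dim X - p) (D.dim X - q) = D.h X p q
  /-- dimension of products -/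
  dim_mul : ∀ X Y, D.dim (X * Y) = D.dim X + D.dim Y
  /-- Künneth formula -/
  kunneth : ∀ X Y, D.E (X * Y) = D.E X * D.E Y
  /-- `D(X) ≃ D(Y)` implies `D(X × Z) ≃ D(Y × Z)` -/
  deq_mul : ∀ X Y Z, D.deq X Y → D.deq (X * Z) (Y * Z)
  /-- derived equivalent varieties have the same dimension -/
  deq_dim : ∀ X Y, D.deq X Y → D.dim X = D.dim Y
  /-- derived equivalent varieties have the same Hochschild homology -/
  hochschild : ∀ X Y, D.deq X Y → ∀ i : ℤ, D.HH X i = D.HH Y i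
  /-- projective spaces -/
  proj : ∀ n : ℕ, ∃ P, D.dim P = n ∧ D.E P = ∑ l ∈ range (n + 1), xy 1 1 ^ l
  /-- elliptic curves -/
  ell : ∃ C, D.dim C = 1 ∧ D.E C = (1 - xy 1 0) * (1 - xy 0 1)
  /-- Calabi–Yau varieties (hypersurfaces of degree `d + 2` in `ℙ^(d + 1)`) -/
  cy : ∀ d : ℕ, 1 ≤ d → ∃ Z, D.dim Z = d ∧ D.h Z 0 d = 1 ∧ ∀ j, 0 < j → j < d → D.h Z 0 j = 0
  /-- the blow-up `Z` of a projective space `ℙ^d` of large dimension `d` in disjoint copies of the given
  varieties `V₁, ..., V_k`; `V_i` contributes `(w + ... + w ^ (c_i - 1)) E(V_i)`, `w = x y`, `c_i` the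
  codimension -/
  blow : ∀ l : List V, ∃ d₀ : ℕ, ∀ d ≥ d₀, ∃ Z, D.dim Z = d ∧
    D.E Z = (∑ i ∈ range (d + 1), xy 1 1 ^ i) +
      (l.map fun X => (∑ i ∈ range (d - D.dim X - 1), xy 1 1 ^ (i + 1)) * D.E X).sum
  /-- for a prime `q`, the variety `W_q(X) = (X^q × C) / (ℤ/q)` (`C` an elliptic curve, `ℤ/q` permutes the
  factors of `X^q` cyclically and acts on `C` by translations); derived equivalent `X, Y` have derived
  equivalent `W_q(X), W_q(Y)` -/
  cyc : ∀ q : ℕ, q.Prime → ∃ W : V → V,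
    (∀ X, (q : ℤ) • D.E (W X) =
      (D.E X ^ q + ((q : ℤ) - 1) • D.Ek q X) * ((1 - xy 1 0) * (1 - xy 0 1))) ∧
    ∀ X Y, D.deq X Y → D.deq (W X) (W Y)

end Pool.Agent.H378.HN
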