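import Pool.Agent.H378.HN.Sym

/-!
# Division by `(1 - w)²`
-/

set_option autoImplicit false

open AddMonoidAlgebra

namespace Pool.Agent.H378.HN

/-- `x ^ i y ^ j` is mapped to `x ^ (i - j)`. -/
noncomputable def rho : Lau ℤ →+* Lau ℤ :=
  mapDomainRingHom ℤ
    (AddMonoidHom.prod (AddMonoidHom.fst ℤ ℤ - AddMonoidHom.snd ℤ ℤ) (0 : ℤ × ℤ →+ ℤ))

lemma rho_mon (i j : ℤ) : rho (mon ℤ i j) = mon ℤ (i - j) 0 := by
  unfold rho mon
  rw [mapDomainRingHom_apply, mapDomain_single]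
  rfl

/-- `x ^ i y ^ j` is mapped to `x ^ (-j) y ^ (-i)`. -/
noncomputable def kap : Lau ℤ ≃+* Lau ℤ :=
  mapDomainRingEquiv ℤ (AddEquiv.prodComm.trans (AddEquiv.neg (ℤ × ℤ)))

lemma cf_kap (f : Lau ℤ) (i j : ℤ) : cf (kap f) i j = cf f (-j) (-i) := by
  unfold cf kap
  rw [coeff_mapDomainRingEquiv, Finsupp.equivMapDomain_apply]
  rfl

lemma kap_mon (i j : ℤ) : kap (mon ℤ i j) = mon ℤ (-j) (-i) := by
  refine ext_cf fun a b => ?_
  rw [cf_kap, cf_mon, cf_mon]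
  congr 1
  rw [eq_iff_iff]
  omega

lemma hom_eq_sum (φ : Lau ℤ →+* Lau ℤ) (f : Lau ℤ) :
    φ f = ∑ p ∈ f.coeff.support, cf f p.1 p.2 • φ (mon ℤ p.1 p.2) := by
  conv_lhs => rw [eq_sum f]
  rw [map_sum]
  exact Finset.sum_congr rfl fun p _ => by rw [map_zsmul]

lemma rho_kap (f : Lau ℤ) : rho (kap f) = rho f := by
  have h1 := hom_eq_sum (rho.comp kap.toRingHom) f
  have h2 := hom_eq_sum rho f
  rw [h2]
  refine Eq.trans h1 (Finset.sum_congr rfl fun p _ => ?_)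
  congr 1
  change rho (kap _) = _
  rw [kap_mon, rho_mon, rho_mon]
  congr 1
  ring

lemma dvd_mon (i j : ℤ) : (1 - W) ∣ mon ℤ i j - mon ℤ (i - j) 0 := by
  have h1 : mon ℤ i j - mon ℤ (i - j) 0 = mon ℤ (i - j) 0 * (mon ℤ j j - 1) := by
    rw [mul_sub, mon_mul_mon, mul_one]
    congr 2 <;> ring
  rw [h1]
  refine Dvd.dvd.mul_left ?_ _
  obtain ⟨n, rfl | rfl⟩ := j.eq_nat_or_neg
  · rw [← W_pow, ← neg_sub 1 (W ^ n), ← geo_mul, dvd_neg]
    exact Dvd.intro _ rfl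
  · have h2 : mon ℤ (-(n : ℤ)) (-(n : ℤ)) - 1 = mon ℤ (-(n : ℤ)) (-(n : ℤ)) * (1 - W ^ n) := by
      rw [mul_sub, mul_one, W_pow, mon_mul_mon]
      simp [mon_zero]
    rw [h2, ← geo_mul]
    exact Dvd.dvd.mul_left (Dvd.intro _ rfl) _

lemma dvd_sub_rho (f : Lau ℤ) : (1 - W) ∣ f - rho f := by
  have h1 : f - rho f = ∑ p ∈ f.coeff.support,
      cf f p.1 p.2 • (mon ℤ p.1 p.2 - mon ℤ (p.1 - p.2) 0) := by
    conv_lhs => rw [hom_eq_sum rho f]
    conv_lhs => lhs; rw [eq_sum f]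
    rw [← Finset.sum_sub_distrib]
    exact Finset.sum_congr rfl fun p _ => by rw [rho_mon, smul_sub]
  rw [h1]
  refine Finset.dvd_sum fun p _ => ?_
  rw [zsmul_eq_mul]
  exact Dvd.dvd.mul_left (dvd_mon _ _) _

lemma dvd_of_rho {f : Lau ℤ} (h : rho f = 0) : (1 - W) ∣ f := by
  have := dvd_sub_rho f
  rwa [h, sub_zero] at this

lemma one_sub_W_ne : (1 : Lau ℤ) - W ≠ 0 := by
  intro h
  have h1 : cf ((1 : Lau ℤ) - W) 0 0 = 1 := by
    rw [cf_sub, ← mon_zero, W, cf_mon, cf_mon]; norm_num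
  rw [h, cf_zero] at h1
  exact zero_ne_one h1

lemma exists_bd (f : Lau ℤ) : ∃ B : ℕ, Lo (-B) f ∧ Hi B f := by
  refine ⟨∑ p ∈ f.coeff.support, (p.1.natAbs + p.2.natAbs), ?_, ?_⟩ <;>
  · intro i j hij
    by_contra h
    have h1 : (i, j) ∈ f.coeff.support := by rw [mem_support]; exact h
    have h2 := Finset.single_le_sum (f := fun p : ℤ × ℤ => p.1.natAbs + p.2.natAbs)
      (fun p _ => Nat.zero_le _) h1
    simp only at h2
    omega

lemma cf_one_sub_W (T : Lau ℤ) (i j : ℤ) :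
    cf ((1 - W) * T) i j = cf T i j - cf T (i - 1) (j - 1) := by
  rw [sub_mul, one_mul, cf_sub, W, cf_mon_mul]

lemma Lo.of_mul {a : ℤ} {T : Lau ℤ} (h : Lo a ((1 - W) * T)) : Lo a T := by
  have h1 : ∀ k : ℕ, ∀ i j : ℤ, (i < a ∨ j < a) → cf T i j = cf T (i - k) (j - k) := by
    intro k
    induction k with
    | zero => intro i j _; simp
    | succ k ih =>
      intro i j hij
      have h2 := h (i - k) (j - k) (by omega)
      rw [cf_one_sub_W, sub_eq_zero] at h2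
      rw [ih i j hij, h2]
      push_cast
      congr 1 <;> ring
  obtain ⟨B, hB, _⟩ := exists_bd T
  intro i j hij
  rw [h1 (i.natAbs + j.natAbs + B + 1) i j hij]
  exact hB _ _ (by omega)

lemma Hi.of_mul {a : ℤ} {T : Lau ℤ} (h : Hi a ((1 - W) * T)) : Hi a T := by
  have h1 : ∀ k : ℕ, ∀ i j : ℤ, (a < i ∨ a < j) → cf T i j = cf T (i + k) (j + k) := by
    intro k
    induction k with
    | zero => intro i j _; simp
    | succ k ih =>
      intro i j hij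
      have h2 := h (i + k + 1) (j + k + 1) (by omega)
      rw [cf_one_sub_W, sub_eq_zero] at h2
      rw [ih i j hij]
      have h3 : i + (k : ℤ) + 1 - 1 = i + k := by ring
      have h4 : j + (k : ℤ) + 1 - 1 = j + k := by ring
      rw [h3, h4] at h2
      rw [← h2]
      push_cast
      congr 1 <;> ring
  obtain ⟨B, _, hB⟩ := exists_bd T
  intro i j hij
  rw [h1 (i.natAbs + j.natAbs + B + 1) i j hij]
  exact hB _ _ (by omega)

/-- The difference of the E-polynomials is `(1 - w)² U`. -/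
theorem exists_T_U {R : Lau ℤ} {n : ℕ} (hlo : Lo 0 R) (hhi : Hi n R) (hr : rho R = 0)
    (hsw : sw R = R) (hk : ∀ i j : ℤ, cf R i j = cf R (n - j) (n - i)) :
    ∃ T U : Lau ℤ, R = (1 - W) * T ∧ T = (1 - W) * U ∧ Lo 0 T ∧ Hi n T ∧ Lo 0 U ∧ Hi n U ∧
      sw T = T := by
  obtain ⟨T, hT⟩ := dvd_of_rho hr
  have h1 : kap R = mon ℤ (-n) (-n) * R := by
    refine ext_cf fun i j => ?_
    rw [cf_kap, cf_mon_mul, hk]
    congr 1 <;> ring
  have h2 : kap T = -(mon ℤ (1 - n) (1 - n) * T) := by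
    have h3 : kap R = (1 - mon ℤ (-1) (-1)) * kap T := by
      rw [hT, map_mul, map_sub, map_one, W, kap_mon]
    have h4 : (1 - W) * kap T = (1 - W) * -(mon ℤ (1 - n) (1 - n) * T) := by
      have h5 : mon ℤ 1 1 * mon ℤ (-1) (-1) = 1 := by rw [mon_mul_mon]; simp [mon_zero]
      have h6 : mon ℤ 1 1 * mon ℤ (-n) (-n) = mon ℤ (1 - n) (1 - n) := by
        rw [mon_mul_mon]; congr 1
      calc (1 - W) * kap T = -(W * ((1 - mon ℤ (-1) (-1)) * kap T)) +
            (1 - mon ℤ 1 1 * mon ℤ (-1) (-1)) * kap T := by unfold W; ring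
        _ = -(W * (mon ℤ (-n) (-n) * R)) := by rw [h5, ← h3, h1]; ring
        _ = -((mon ℤ 1 1 * mon ℤ (-n) (-n)) * R) := by unfold W; ring
        _ = -(mon ℤ (1 - n) (1 - n) * ((1 - W) * T)) := by rw [h6, ← hT]
        _ = _ := by ring
    exact mul_left_cancel₀ one_sub_W_ne h4
  have h3 : rho T = 0 := by
    have h4 := congrArg rho h2
    rw [rho_kap, map_neg, map_mul, rho_mon, sub_self, mon_zero, one_mul] at h4
    have h5 : (2 : ℤ) • rho T = 0 := by rw [two_zsmul]; nth_rw 1 [h4]; ring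
    exact (smul_eq_zero.mp h5).resolve_left (by norm_num)
  obtain ⟨U, hU⟩ := dvd_of_rho h3
  have hloT : Lo 0 T := Lo.of_mul (by rwa [← hT])
  have hhiT : Hi n T := Hi.of_mul (by rwa [← hT])
  refine ⟨T, U, hT, hU, hloT, hhiT, Lo.of_mul (by rwa [← hU]), Hi.of_mul (by rwa [← hU]), ?_⟩
  have h7 : (1 - W) * sw T = (1 - W) * T := by
    have : sw ((1 - W) * T) = (1 - W) * sw T := by
      rw [map_mul, map_sub, map_one, W, sw_mon]
    rw [← this, ← hT, hsw]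
  exact mul_left_cancel₀ one_sub_W_ne h7

end Pool.Agent.H378.HN
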