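import Mathlib

/-!
# Laurent polynomials in two variables
-/

set_option autoImplicit false

open AddMonoidAlgebra

namespace Pool.Agent.H378.HN

/-- Laurent polynomials in two variables `x, y` over `k`. -/
abbrev Lau (k : Type) [CommRing k] : Type := AddMonoidAlgebra k (ℤ × ℤ)

section basic

variable {k : Type} [CommRing k]

/-- The coefficient of `x ^ i * y ^ j`. -/
noncomputable def cf (f : Lau k) (i j : ℤ) : k := f.coeff (i, j)

/-- The monomial `x ^ i * y ^ j`. -/
noncomputable def mon (k : Type) [CommRing k] (i j : ℤ) : Lau k := single (i, j) 1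

lemma ext_cf {f g : Lau k} (h : ∀ i j, cf f i j = cf g i j) : f = g := by
  ext ⟨i, j⟩
  exact h i j

lemma cf_add (f g : Lau k) (i j : ℤ) : cf (f + g) i j = cf f i j + cf g i j := rfl

lemma cf_sub (f g : Lau k) (i j : ℤ) : cf (f - g) i j = cf f i j - cf g i j := by
  unfold cf; rw [coeff_sub]; rfl

lemma cf_neg (f : Lau k) (i j : ℤ) : cf (-f) i j = -cf f i j := by
  unfold cf; rw [coeff_neg]; rfl

lemma cf_zero (i j : ℤ) : cf (0 : Lau k) i j = 0 := rfl

lemma cf_smul (c : k) (f : Lau k) (i j : ℤ) : cf (c • f) i j = c * cf f i j := rfl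

lemma cf_nsmul (c : ℕ) (f : Lau k) (i j : ℤ) : cf (c • f) i j = c * cf f i j := by
  induction c with
  | zero => simp [cf_zero]
  | succ n ih => rw [succ_nsmul, cf_add, ih]; push_cast; ring

lemma cf_zsmul (c : ℤ) (f : Lau k) (i j : ℤ) : cf (c • f) i j = c * cf f i j := by
  unfold cf
  rw [coeff_smul_apply, zsmul_eq_mul]

lemma cf_sum {ι : Type} (s : Finset ι) (f : ι → Lau k) (i j : ℤ) :
    cf (∑ a ∈ s, f a) i j = ∑ a ∈ s, cf (f a) i j := by
  unfold cf
  rw [coeff_sum, Finset.sum_apply']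

lemma cf_mon (a b i j : ℤ) : cf (mon k a b) i j = if a = i ∧ b = j then 1 else 0 := by
  unfold cf mon
  rw [coeff_single_apply]
  simp [Prod.ext_iff]

lemma cf_mul_mon (f : Lau k) (a b i j : ℤ) : cf (f * mon k a b) i j = cf f (i - a) (j - b) := by
  unfold cf mon
  rw [coeff_mul_single_apply]
  simp [sub_eq_add_neg]

lemma cf_mon_mul (f : Lau k) (a b i j : ℤ) : cf (mon k a b * f) i j = cf f (i - a) (j - b) := by
  rw [mul_comm, cf_mul_mon]

lemma mon_mul_mon (a b c d : ℤ) : mon k a b * mon k c d = mon k (a + c) (b + d) := by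
  simp [mon, single_mul_single]

lemma mon_zero : mon k 0 0 = 1 := rfl

lemma mon_pow (a b : ℤ) (n : ℕ) : mon k a b ^ n = mon k (n * a) (n * b) := by
  induction n with
  | zero => simp [mon_zero]
  | succ n ih =>
    rw [pow_succ, ih, mon_mul_mon]
    congr 1 <;> push_cast <;> ring

/-- `f` is the sum of its monomials. -/
lemma eq_sum (f : Lau k) : f = ∑ p ∈ f.coeff.support, cf f p.1 p.2 • mon k p.1 p.2 := by
  refine ext_cf fun i j => ?_
  rw [cf_sum]
  by_cases h : (i, j) ∈ f.coeff.support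
  · rw [Finset.sum_eq_single (i, j)]
    · rw [cf_smul, cf_mon]; simp
    · intro p _ hp
      rw [cf_smul, cf_mon, if_neg, mul_zero]
      rintro ⟨h1, h2⟩
      exact hp (Prod.ext h1 h2)
    · exact fun h' => absurd h h'
  · have h1 : cf f i j = 0 := by
      unfold cf; rwa [Finsupp.notMem_support_iff] at h
    rw [h1]
    refine (Finset.sum_eq_zero fun p hp => ?_).symm
    rw [cf_smul, cf_mon, if_neg, mul_zero]
    rintro ⟨h2, h3⟩
    exact h (by rw [← h2, ← h3]; exact hp)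

lemma mem_support {f : Lau k} {p : ℤ × ℤ} : p ∈ f.coeff.support ↔ cf f p.1 p.2 ≠ 0 := by
  rw [Finsupp.mem_support_iff]; rfl

/-- The coefficients of a product. -/
lemma cf_mul (f g : Lau k) (i j : ℤ) :
    cf (f * g) i j = ∑ p ∈ f.coeff.support, cf f p.1 p.2 * cf g (i - p.1) (j - p.2) := by
  conv_lhs => rw [eq_sum f]
  rw [Finset.sum_mul, cf_sum]
  refine Finset.sum_congr rfl fun p _ => ?_
  rw [smul_mul_assoc, cf_smul, cf_mon_mul]

end basic

section box

variable {k : Type} [CommRing k]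

/-- The support is in `[a, ∞)²`. -/
def Lo (a : ℤ) (f : Lau k) : Prop := ∀ i j : ℤ, (i < a ∨ j < a) → cf f i j = 0

/-- The support is in `(-∞, a]²`. -/
def Hi (a : ℤ) (f : Lau k) : Prop := ∀ i j : ℤ, (a < i ∨ a < j) → cf f i j = 0

lemma Lo.add {a : ℤ} {f g : Lau k} (hf : Lo a f) (hg : Lo a g) : Lo a (f + g) := by
  intro i j h
  rw [cf_add, hf i j h, hg i j h, add_zero]

lemma Lo.sub {a : ℤ} {f g : Lau k} (hf : Lo a f) (hg : Lo a g) : Lo a (f - g) := by
  intro i j h
  rw [cf_sub, hf i j h, hg i j h, sub_zero]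

lemma Lo.neg {a : ℤ} {f : Lau k} (hf : Lo a f) : Lo a (-f) := by
  intro i j h
  rw [cf_neg, hf i j h, neg_zero]

lemma Lo.mul {a b : ℤ} {f g : Lau k} (hf : Lo a f) (hg : Lo b g) : Lo (a + b) (f * g) := by
  intro i j h
  rw [cf_mul]
  refine Finset.sum_eq_zero fun p hp => ?_
  rw [mem_support] at hp
  have h1 : a ≤ p.1 ∧ a ≤ p.2 := by
    by_contra h2
    exact hp (hf _ _ (by omega))
  rw [hg (i - p.1) (j - p.2) (by omega), mul_zero]

lemma Lo.mul0 {f g : Lau k} (hf : Lo 0 f) (hg : Lo 0 g) : Lo 0 (f * g) := by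
  simpa using hf.mul hg

lemma Lo.sum {ι : Type} {a : ℤ} (s : Finset ι) (f : ι → Lau k) (h : ∀ i ∈ s, Lo a (f i)) :
    Lo a (∑ i ∈ s, f i) := by
  intro i j hij
  rw [cf_sum]
  exact Finset.sum_eq_zero fun t ht => h t ht i j hij

lemma Lo.mono {a b : ℤ} (hab : b ≤ a) {f : Lau k} (hf : Lo a f) : Lo b f := by
  intro i j h
  exact hf i j (by omega)

lemma lo_mon {a i j : ℤ} (hi : a ≤ i) (hj : a ≤ j) : Lo a (mon k i j) := by
  intro p q h
  rw [cf_mon, if_neg]
  rintro ⟨rfl, rfl⟩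
  omega

lemma lo_one : Lo 0 (1 : Lau k) := by
  rw [← mon_zero]; exact lo_mon le_rfl le_rfl

lemma Lo.smul {a : ℤ} {f : Lau k} (hf : Lo a f) (c : k) : Lo a (c • f) := by
  intro i j h
  rw [cf_smul, hf i j h, mul_zero]

lemma Lo.pow {f : Lau k} (hf : Lo 0 f) (n : ℕ) : Lo 0 (f ^ n) := by
  induction n with
  | zero => rw [pow_zero]; exact lo_one
  | succ n ih => rw [pow_succ]; exact ih.mul0 hf

/-- The constant coefficient is multiplicative. -/
lemma cf_zero_mul {f g : Lau k} (hf : Lo 0 f) (hg : Lo 0 g) :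
    cf (f * g) 0 0 = cf f 0 0 * cf g 0 0 := by
  rw [cf_mul]
  by_cases h : ((0, 0) : ℤ × ℤ) ∈ f.coeff.support
  · rw [Finset.sum_eq_single (0, 0)]
    · simp
    · intro p hp hp0
      rw [mem_support] at hp
      have h1 : 0 ≤ p.1 ∧ 0 ≤ p.2 := by
        by_contra h2
        exact hp (hf _ _ (by omega))
      have h2 : ¬ (p.1 = 0 ∧ p.2 = 0) := fun h3 => hp0 (Prod.ext h3.1 h3.2)
      rw [hg (0 - p.1) (0 - p.2) (by omega), mul_zero]
    · exact fun h' => absurd h h'
  · have h1 : cf f 0 0 = 0 := by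
      rw [mem_support, not_not] at h
      exact h
    rw [h1, zero_mul]
    refine Finset.sum_eq_zero fun p hp => ?_
    have hp' := hp
    rw [mem_support] at hp
    have h1 : 0 ≤ p.1 ∧ 0 ≤ p.2 := by
      by_contra h2
      exact hp (hf _ _ (by omega))
    have h2 : ¬ (p.1 = 0 ∧ p.2 = 0) := fun h3 => h (by
      have : p = (0, 0) := Prod.ext h3.1 h3.2
      rwa [this] at hp')
    rw [hg (0 - p.1) (0 - p.2) (by omega), mul_zero]

lemma cf_zero_pow {f : Lau k} (hf : Lo 0 f) (n : ℕ) : cf (f ^ n) 0 0 = cf f 0 0 ^ n := by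
  induction n with
  | zero => rw [pow_zero, pow_zero, ← mon_zero, cf_mon]; simp
  | succ n ih => rw [pow_succ, cf_zero_mul (hf.pow n) hf, ih, pow_succ]

/-- Equality of the coefficients in the window `[c, K]²`. -/
def EqW (c K : ℤ) (f g : Lau k) : Prop :=
  ∀ i j : ℤ, c ≤ i → c ≤ j → i ≤ K → j ≤ K → cf f i j = cf g i j

lemma EqW.refl (c K : ℤ) (f : Lau k) : EqW c K f f := fun _ _ _ _ _ _ => rfl

lemma EqW.symm {c K : ℤ} {f g : Lau k} (h : EqW c K f g) : EqW c K g f :=
  fun i j h1 h2 h3 h4 => (h i j h1 h2 h3 h4).symm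

lemma EqW.trans {c K : ℤ} {f g h : Lau k} (h1 : EqW c K f g) (h2 : EqW c K g h) : EqW c K f h :=
  fun i j a b c d => (h1 i j a b c d).trans (h2 i j a b c d)

lemma EqW.add {c K : ℤ} {f g f' g' : Lau k} (h : EqW c K f g) (h' : EqW c K f' g') :
    EqW c K (f + f') (g + g') := by
  intro i j a b c d
  rw [cf_add, cf_add, h i j a b c d, h' i j a b c d]

lemma EqW.neg {c K : ℤ} {f g : Lau k} (h : EqW c K f g) : EqW c K (-f) (-g) := by
  intro i j a b c d
  rw [cf_neg, cf_neg, h i j a b c d]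

lemma EqW.sub {c K : ℤ} {f g f' g' : Lau k} (h : EqW c K f g) (h' : EqW c K f' g') :
    EqW c K (f - f') (g - g') := by
  intro i j a b c d
  rw [cf_sub, cf_sub, h i j a b c d, h' i j a b c d]

lemma eqW_of_lo {c K : ℤ} {f g h : Lau k} {a : ℤ} (ha : K < a) (hf : Lo a h) (e : f = g + h) :
    EqW c K f g := by
  intro i j _ _ h3 _
  rw [e, cf_add, hf i j (Or.inl (by omega)), add_zero]

end box

end Pool.Agent.H378.HN
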