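import Pool.Agent.H378.HN.Main
import Pool.Graph.R_pool_sql_team_seeded_2aa45f1a.Q148.HN.Var

/-!
# The middle Hodge numbers
-/

set_option autoImplicit false

open AddMonoidAlgebra

namespace Pool.Agent.H378.HN

/-- The monoid homomorphism `x ^ i y ^ j ↦ (-1) ^ (i + j) x ^ i y ^ j`. -/
noncomputable def epsMon : Multiplicative (ℤ × ℤ) →* Lau ℤ where
  toFun p := ((p.toAdd.1 + p.toAdd.2).negOnePow : ℤ) • mon ℤ p.toAdd.1 p.toAdd.2
  map_one' := by simp [mon_zero]
  map_mul' := by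
    intro p q
    rw [smul_mul_smul_comm, mon_mul_mon]
    simp only [toAdd_mul, Prod.fst_add, Prod.snd_add]
    congr 1
    rw [← Units.val_mul, ← Int.negOnePow_add]
    congr 2
    ring

/-- `f(-x, -y)`. -/
noncomputable def eps : Lau ℤ →ₐ[ℤ] Lau ℤ := AddMonoidAlgebra.lift ℤ (Lau ℤ) (ℤ × ℤ) epsMon

lemma eps_mon (i j : ℤ) : eps (mon ℤ i j) = ((i + j).negOnePow : ℤ) • mon ℤ i j := by
  unfold eps mon
  rw [AddMonoidAlgebra.lift_single, one_smul]
  rfl

lemma cf_eps (f : Lau ℤ) (i j : ℤ) : cf (eps f) i j = ((i + j).negOnePow : ℤ) * cf f i j := by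
  have h1 := hom_eq_sum eps.toRingHom f
  change cf (eps.toRingHom f) i j = _
  rw [h1, cf_sum]
  conv_rhs => rw [eq_sum f]
  rw [cf_sum, Finset.mul_sum]
  refine Finset.sum_congr rfl fun p _ => ?_
  change cf (_ • eps _) i j = _
  rw [eps_mon, cf_smul, cf_smul, cf_smul, cf_mon]
  split_ifs with h2
  · rw [h2.1, h2.2]; ring
  · ring

variable {V : Type} {D : HodgeData V}

/-- The data in the form of the library. -/
noncomputable def toLib (D : HodgeData V) : Pool.Agent.Q148.HN.HodgeData V where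
  hodge X := eps (D.E X)
  dim := D.dim
  deq := D.deq

lemma toLib_h (hs : ∀ X p q, (D.dim X < p ∨ D.dim X < q) → D.h X p q = 0) (X : V) (p q : ℕ) :
    (toLib D).h X p q = D.h X p q := by
  change cf (eps (D.E X)) p q = _
  rw [cf_eps, cf_E hs, ← mul_assoc]
  have h1 : (((p : ℤ) + q).negOnePow : ℤ) = (-1) ^ (p + q) := by
    have : ((p : ℤ) + q) = ((p + q : ℕ) : ℤ) := by push_cast; rfl
    rw [this, Int.coe_negOnePow_natCast]
  rw [h1, ← pow_add, ← two_mul]
  simp

lemma toLib_neg (X : V) (p q : ℤ) (h : p < 0 ∨ q < 0) : (toLib D).h X p q = 0 := by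
  change cf (eps (D.E X)) p q = _
  rw [cf_eps, E_lo D X p q h, mul_zero]

lemma toLib_big (X : V) (p q : ℤ) (h : (D.dim X : ℤ) < p ∨ (D.dim X : ℤ) < q) :
    (toLib D).h X p q = 0 := by
  change cf (eps (D.E X)) p q = _
  rw [cf_eps, E_hi D X p q h, mul_zero]

variable [CommMonoid V]

lemma toLib_isHodge (h : IsHodge D) : Pool.Agent.Q148.HN.IsHodge (toLib D) where
  mul X Y := by
    change eps (D.E (X * Y)) = eps (D.E X) * eps (D.E Y)
    rw [h.kunneth, map_mul]
  dim_mul := h.dim_mul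
  symm X p q := by
    by_cases hpq : p < 0 ∨ q < 0
    · rw [toLib_neg X p q hpq, toLib_neg X q p hpq.symm]
    · obtain ⟨a, rfl⟩ : ∃ a : ℕ, p = a := ⟨p.toNat, by omega⟩
      obtain ⟨b, rfl⟩ : ∃ b : ℕ, q = b := ⟨q.toNat, by omega⟩
      rw [toLib_h h.supp, toLib_h h.supp, h.symm]
  serre X p q := by
    change _ = (toLib D).h X ((D.dim X : ℤ) - p) ((D.dim X : ℤ) - q)
    by_cases hpq : p < 0 ∨ q < 0
    · rw [toLib_neg X p q hpq, toLib_big]
      omega
    · by_cases hpq' : (D.dim X : ℤ) < p ∨ (D.dim X : ℤ) < q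
      · rw [toLib_big X p q hpq', toLib_neg]
        omega
      · obtain ⟨a, rfl⟩ : ∃ a : ℕ, p = a := ⟨p.toNat, by omega⟩
        obtain ⟨b, rfl⟩ : ∃ b : ℕ, q = b := ⟨q.toNat, by omega⟩
        have e1 : (D.dim X : ℤ) - b = ((D.dim X - b : ℕ) : ℤ) := by omega
        have e2 : (D.dim X : ℤ) - a = ((D.dim X - a : ℕ) : ℤ) := by omega
        rw [e1, e2, toLib_h h.supp, toLib_h h.supp, h.serre X a b (by omega) (by omega)]
  supp X p q hpq := toLib_neg X p q hpq
  deq_mul := h.deq_mul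
  deq_dim := h.deq_dim
  hochschild X Y hXY i := by
    have e : ∀ Z : V, ∑ k ∈ Finset.range (D.dim Z + 1), (toLib D).h Z ((k : ℤ) + i) k =
        (D.HH Z i : ℤ) := by
      intro Z
      unfold HodgeData.HH
      rw [Finset.sum_comm]
      push_cast
      refine Finset.sum_congr rfl fun k hk => ?_
      rw [Finset.mem_range] at hk
      have h1 : ((k : ℤ) + i) = ((k + i : ℕ) : ℤ) := by push_cast; rfl
      rw [h1, toLib_h h.supp]
      by_cases h2 : k + i ≤ D.dim Z
      · rw [Finset.sum_eq_single (k + i)]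
        · rw [if_pos (by push_cast; ring)]
        · intro p _ hp
          rw [if_neg (by omega)]
        · intro h3; exact absurd (Finset.mem_range.mpr (by omega)) h3
      · rw [h.supp Z (k + i) k (by omega), Nat.cast_zero]
        refine (Finset.sum_eq_zero fun p hp => ?_).symm
        rw [Finset.mem_range] at hp
        rw [if_neg (by omega)]
    have h1 := e X
    have h2 := e Y
    change ∑ k ∈ Finset.range (D.dim X + 1), _ = ∑ k ∈ Finset.range (D.dim X + 1), _
    rw [h1]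
    have h3 := h.deq_dim X Y hXY
    rw [h3, h2, h.hochschild X Y hXY]

/-- Congruences of all Hodge numbers imply equalities. -/
theorem eq_of_modEq (h : IsHodge D) {N : ℕ} (hN : 2 ≤ N)
    (hc : ∀ X Y, D.deq X Y → ∀ p q, D.h X p q ≡ D.h Y p q [MOD N]) :
    ∀ X Y, D.deq X Y → ∀ p q, D.h X p q = D.h Y p q := by
  intro X Y hXY p q
  by_contra hne
  obtain ⟨X', Y', hXY', hP⟩ := exists_prim h hXY hne
  obtain ⟨ℓ, hℓ, hd⟩ := Nat.exists_prime_and_dvd (by omega : N ≠ 1)
  apply hP ℓ hℓ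
  rw [red_eq_zero]
  intro i j
  by_cases hij : i < 0 ∨ j < 0
  · rw [cf_sub, E_lo D X' i j hij, E_lo D Y' i j hij, sub_zero]; exact dvd_zero _
  · obtain ⟨a, rfl⟩ : ∃ a : ℕ, i = a := ⟨i.toNat, by omega⟩
    obtain ⟨b, rfl⟩ : ∃ b : ℕ, j = b := ⟨j.toNat, by omega⟩
    rw [cf_sub, cf_E h.supp, cf_E h.supp, ← mul_sub]
    refine Dvd.dvd.mul_left ?_ _
    have h1 := (Nat.modEq_iff_dvd.mp (hc X' Y' hXY' a b).symm)
    exact (Int.natCast_dvd_natCast.mpr hd).trans h1

/-- The middle Hodge numbers modulo an odd number. -/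
theorem of_middle (h : IsHodge D) {N : ℕ} (hN : 3 ≤ N) (hodd : Odd N)
    (hc : ∀ c : ℕ, ∃ m ≥ c, ∀ X Y, D.deq X Y → D.dim X = 2 * m → D.h X m m ≡ D.h Y m m [MOD N]) :
    ∀ X Y, D.deq X Y → ∀ p q, D.h X p q = D.h Y p q := by
  refine eq_of_modEq h (by omega : 2 ≤ N) fun X Y hXY p q => ?_
  obtain ⟨m, hm, hmid⟩ := hc (D.dim X + p + q)
  obtain ⟨line, hl1, hl2⟩ := h.proj 1
  obtain ⟨plane, hp1, hp2⟩ := h.proj 2
  obtain ⟨C, hC1, hC2⟩ := h.ell
  have hL : Pool.Agent.Q148.HN.Has (toLib D) line 1 Pool.Agent.Q148.HN.L := by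
    refine ⟨hl1, ?_⟩
    change eps (D.E line) = _
    rw [hl2, Finset.sum_range_succ, Finset.sum_range_one, pow_zero, pow_one, map_add, map_one,
      xy_mon, eps_mon]
    have : ((1 : ℤ) + 1).negOnePow = 1 := by decide
    rw [this]
    simp only [Units.val_one, one_smul]
    rfl
  have hPl : Pool.Agent.Q148.HN.Has (toLib D) plane 2 Pool.Agent.Q148.HN.Pl := by
    refine ⟨hp1, ?_⟩
    change eps (D.E plane) = _
    rw [hp2, Finset.sum_range_succ, Finset.sum_range_succ, Finset.sum_range_one, pow_zero, pow_one,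
      map_add, map_add, map_one, xy_mon, eps_mon, map_pow, eps_mon]
    have : ((1 : ℤ) + 1).negOnePow = 1 := by decide
    rw [this]
    simp only [Units.val_one, one_smul]
    rw [mon_pow]
    rfl
  have hE : Pool.Agent.Q148.HN.Has (toLib D) C 1 Pool.Agent.Q148.HN.Ell := by
    refine ⟨hC1, ?_⟩
    change eps (D.E C) = _
    rw [hC2, map_mul, map_sub, map_sub, map_one, xy_mon, xy_mon, eps_mon, eps_mon]
    have h1 : ((1 : ℤ) + 0).negOnePow = -1 := by decide
    have h2 : ((0 : ℤ) + 1).negOnePow = -1 := by decide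
    rw [h1, h2]
    simp only [Units.val_neg, Units.val_one, neg_smul, one_smul, sub_neg_eq_add]
    have h3 : (1 + mon ℤ 1 0) * (1 + mon ℤ 0 1) =
        1 + mon ℤ 1 0 + mon ℤ 0 1 + mon ℤ 1 0 * mon ℤ 0 1 := by ring
    rw [h3, mon_mul_mon]
    simp only [add_zero, zero_add]
    rfl
  have hst : ∀ Z : V, Pool.Agent.Q148.HN.StableMul (Set.univ : Set V) Z := fun _ _ _ => trivial
  have hMid : Pool.Agent.Q148.HN.Mid (toLib D) N (Set.univ : Set V) m := by
    intro X _ Y hXY hd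
    have h1 := hmid X Y hXY hd
    rw [toLib_h h.supp, toLib_h h.supp]
    exact (Int.natCast_modEq_iff).mpr h1
  by_cases hin : p ≤ m ∧ q ≤ m
  · have h1 := Pool.Agent.Q148.HN.range_of_mid (toLib_isHodge h) (Or.inr hodd) hL hE hPl (hst _)
      (hst _) (hst _) hMid (Set.mem_univ X) hXY (p : ℤ) (q : ℤ)
      (by change (D.dim X : ℤ) - m ≤ p; omega) (by omega)
      (by change (D.dim X : ℤ) - m ≤ q; omega) (by omega)
    rw [toLib_h h.supp, toLib_h h.supp] at h1
    exact (Int.natCast_modEq_iff).mp h1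
  · omega

end Pool.Agent.H378.HN
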