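import Pool.Agent.H378.HN.Pair

/-!
# The differences of the Hodge numbers are arbitrary
-/

set_option autoImplicit false

open AddMonoidAlgebra

namespace Pool.Agent.H378.HN

variable {V : Type} {D : HodgeData V}

/-- The sums of E-polynomials. -/
noncomputable def Sums (D : HodgeData V) : AddSubmonoid (Lau ℤ) where
  carrier := {Q | ∃ l : List V, Q = (l.map D.E).sum}
  zero_mem' := ⟨[], by simp⟩
  add_mem' := by
    rintro a b ⟨l, rfl⟩ ⟨l', rfl⟩
    exact ⟨l ++ l', by simp⟩

lemma mem_Sums (X : V) : D.E X ∈ Sums D := ⟨[X], by simp⟩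

lemma blow_mul (D : HodgeData V) (d : ℕ) (l : List V) (hd : ∀ X ∈ l, D.dim X + 1 ≤ d) :
    (1 - W) * (l.map fun X => (∑ i ∈ Finset.range (d - D.dim X - 1), W ^ (i + 1)) * D.E X).sum =
      W * (l.map D.E).sum - (l.map fun X => W ^ (d - D.dim X) * D.E X).sum := by
  induction l with
  | nil => simp
  | cons X l ih =>
    have h1 := ih fun Y hY => hd Y (List.mem_cons_of_mem _ hY)
    have h2 := hd X List.mem_cons_self
    have h3 : (1 - W) * ∑ i ∈ Finset.range (d - D.dim X - 1), W ^ (i + 1) = W - W ^ (d - D.dim X) := by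
      have h4 : ∑ i ∈ Finset.range (d - D.dim X - 1), W ^ (i + 1) = W * geo (d - D.dim X - 1) := by
        unfold geo
        rw [Finset.mul_sum]
        exact Finset.sum_congr rfl fun i _ => by rw [pow_succ]; ring
      have h5 := geo_mul (d - D.dim X - 1)
      have h6 : W ^ (d - D.dim X) = W * W ^ (d - D.dim X - 1) := by
        rw [← pow_succ']; congr 1; omega
      rw [h4, h6]
      calc (1 - W) * (W * geo (d - D.dim X - 1)) = W * ((1 - W) * geo (d - D.dim X - 1)) := by ring
        _ = _ := by rw [h5]; ring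
    simp only [List.map_cons, List.sum_cons]
    rw [mul_add, h1, ← mul_assoc, h3]
    ring

lemma lo_list (D : HodgeData V) (d : ℕ) (a : ℕ) (l : List V) (hd : ∀ X ∈ l, D.dim X + a ≤ d) :
    Lo a (l.map fun X => W ^ (d - D.dim X) * D.E X).sum := by
  induction l with
  | nil => simp only [List.map_nil, List.sum_nil]; intro _ _ _; rfl
  | cons X l ih =>
    simp only [List.map_cons, List.sum_cons]
    refine Lo.add ?_ (ih fun Y hY => hd Y (List.mem_cons_of_mem _ hY))
    have h1 := (lo_W_pow (d - D.dim X)).mul (E_lo D X)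
    refine h1.mono ?_
    have := hd X List.mem_cons_self
    omega

variable [CommMonoid V]

lemma exists_pow (h : IsHodge D) {C : V} {P : Lau ℤ} (hC : D.E C = P) (X : V) (i : ℕ) :
    D.E (X * C ^ i) = D.E X * P ^ i := by
  induction i with
  | zero => simp
  | succ i ih => rw [pow_succ, ← mul_assoc, h.kunneth, ih, hC, pow_succ, mul_assoc]

/-- The blow-ups realise the products of `T` with the sums of E-polynomials. -/
lemma exists_blow (h : IsHodge D) {R T : Lau ℤ} (hT : R = (1 - W) * T) (hlo : Lo 0 T) (K : ℕ)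
    (l : List V) : ∃ Z : V, EqW 0 K (R * D.E Z) (T + W * (T * (l.map D.E).sum)) := by
  obtain ⟨d₀, hd⟩ := h.blow l
  obtain ⟨Z, _, hZ⟩ := hd (d₀ + (l.map D.dim).sum + K + 1) (by omega)
  set d := d₀ + (l.map D.dim).sum + K + 1 with hdef
  have hdim : ∀ X ∈ l, D.dim X + (K + 1) ≤ d := by
    intro X hX
    have : D.dim X ≤ (l.map D.dim).sum :=
      List.single_le_sum (by simp) _ (List.mem_map_of_mem hX)
    omega
  refine ⟨Z, ?_⟩
  have h1 : R * D.E Z = T + W * (T * (l.map D.E).sum) +
      (-(T * W ^ (d + 1)) - T * (l.map fun X => W ^ (d - D.dim X) * D.E X).sum) := by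
    have h2 : D.E Z = geo (d + 1) +
        (l.map fun X => (∑ i ∈ Finset.range (d - D.dim X - 1), W ^ (i + 1)) * D.E X).sum := hZ
    rw [hT, h2]
    have h3 := geo_mul (d + 1)
    have h4 := blow_mul D d l fun X hX => by have := hdim X hX; omega
    calc (1 - W) * T * (geo (d + 1) + _) = T * ((1 - W) * geo (d + 1)) + T * ((1 - W) *
          (l.map fun X => (∑ i ∈ Finset.range (d - D.dim X - 1), W ^ (i + 1)) * D.E X).sum) := by ring
      _ = _ := by rw [h3, h4]; ring
  refine eqW_of_lo (a := ((K + 1 : ℕ) : ℤ)) (by push_cast; omega) ?_ h1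
  refine Lo.sub (Lo.neg ?_) ?_
  · have h2 := hlo.mul (lo_W_pow (d + 1))
    exact h2.mono (by omega)
  · have h2 := hlo.mul (lo_list D d (K + 1) l hdim)
    exact h2.mono (by omega)

/-- The structure of the difference of the E-polynomials. -/
lemma diff_struct (h : IsHodge D) {X Y : V} (hXY : D.deq X Y) :
    ∃ T U : Lau ℤ, D.E X - D.E Y = (1 - W) * T ∧ T = (1 - W) * U ∧ Lo 0 T ∧ Hi (D.dim X) T ∧
      Lo 0 U ∧ Hi (D.dim X) U ∧ sw T = T := by
  have hdim := h.deq_dim X Y hXY
  set R := D.E X - D.E Y with hR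
  have hlo : Lo 0 R := (E_lo D X).sub (E_lo D Y)
  have hhi : Hi (D.dim X) R := by
    intro i j hij
    rw [hR, cf_sub, E_hi D X i j hij, E_hi D Y i j (by rw [← hdim]; exact hij), sub_zero]
  have hnat : ∀ i j : ℕ, cf R i j = (-1) ^ (i + j) * ((D.h X i j : ℤ) - D.h Y i j) := by
    intro i j
    rw [hR, cf_sub, cf_E h.supp, cf_E h.supp, mul_sub]
  refine exists_T_U hlo hhi ?_ ?_ ?_
  · -- Hochschild homology
    have h1 : R = ∑ p ∈ Finset.range (D.dim X + 1), ∑ q ∈ Finset.range (D.dim X + 1),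
        ((-1) ^ (p + q) * ((D.h X p q : ℤ) - D.h Y p q)) • mon ℤ p q := by
      rw [hR]
      unfold HodgeData.E HodgeData.Ek
      rw [← hdim, ← Finset.sum_sub_distrib]
      refine Finset.sum_congr rfl fun p _ => ?_
      rw [← Finset.sum_sub_distrib]
      refine Finset.sum_congr rfl fun q _ => ?_
      rw [← sub_smul, ← mul_sub, xy_mon]
      simp
    have h2 : rho R = ∑ p ∈ Finset.range (D.dim X + 1), ∑ q ∈ Finset.range (D.dim X + 1),
        ((-1) ^ (p + q) * ((D.h X p q : ℤ) - D.h Y p q)) • mon ℤ (p - q) 0 := by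
      rw [h1, map_sum]
      refine Finset.sum_congr rfl fun p _ => ?_
      rw [map_sum]
      refine Finset.sum_congr rfl fun q _ => ?_
      rw [map_zsmul, rho_mon]
    rw [h2]
    refine ext_cf fun i j => ?_
    rw [cf_sum, cf_zero]
    have h3 : ∀ p q : ℕ, cf (((-1 : ℤ) ^ (p + q) * ((D.h X p q : ℤ) - D.h Y p q)) •
        mon ℤ (p - q) 0) i j = (if j = 0 then (if Even i then 1 else -1) else 0 : ℤ) *
          ((if (p : ℤ) - q = i then (D.h X p q : ℤ) else 0) -
            (if (p : ℤ) - q = i then (D.h Y p q : ℤ) else 0)) := by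
      intro p q
      rw [cf_smul, cf_mon]
      by_cases h4 : (p : ℤ) - q = i
      · by_cases h5 : j = 0
        · rw [if_pos ⟨h4, h5.symm⟩, if_pos h5, if_pos h4, if_pos h4, mul_one]
          congr 1
          rcases Nat.even_or_odd (p + q) with h6 | h6
          · have h7 : Even i := by
              rw [← h4]; obtain ⟨t, ht⟩ := h6
              exact ⟨t - q, by omega⟩
            rw [h6.neg_one_pow, if_pos h7]
          · have h7 : ¬ Even i := by
              rw [← h4, Int.not_even_iff_odd]; obtain ⟨t, ht⟩ := h6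
              exact ⟨t - q, by omega⟩
            rw [h6.neg_one_pow, if_neg h7]
        · rw [if_neg fun h6 => h5 h6.2.symm, if_neg h5, mul_zero, zero_mul]
      · rw [if_neg fun h6 => h4 h6.1, if_neg h4, if_neg h4, mul_zero, sub_zero, mul_zero]
    have h4 := h.hochschild X Y hXY i
    unfold HodgeData.HH at h4
    rw [← hdim] at h4
    have h5 : (∑ p ∈ Finset.range (D.dim X + 1), ∑ q ∈ Finset.range (D.dim X + 1),
        if (p : ℤ) - q = i then (D.h X p q : ℤ) else 0) =
        ∑ p ∈ Finset.range (D.dim X + 1), ∑ q ∈ Finset.range (D.dim X + 1),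
        if (p : ℤ) - q = i then (D.h Y p q : ℤ) else 0 := by
      exact_mod_cast h4
    rw [Finset.sum_congr rfl fun p _ => (cf_sum _ _ _ _)]
    rw [Finset.sum_congr rfl fun p _ => Finset.sum_congr rfl fun q _ => h3 p q]
    simp only [← Finset.mul_sum, Finset.sum_sub_distrib]
    rw [h5, sub_self, mul_zero]
  · refine ext_cf fun i j => ?_
    rw [cf_sw]
    by_cases hij : i < 0 ∨ j < 0
    · rw [hlo i j hij, hlo j i (by omega)]
    · obtain ⟨a, rfl⟩ : ∃ a : ℕ, i = a := ⟨i.toNat, by omega⟩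
      obtain ⟨b, rfl⟩ : ∃ b : ℕ, j = b := ⟨j.toNat, by omega⟩
      rw [hnat, hnat, h.symm X, h.symm Y, add_comm]
  · intro i j
    by_cases hij : i < 0 ∨ j < 0
    · rw [hlo i j hij, hhi _ _ (by omega)]
    · by_cases hij' : (D.dim X : ℤ) < i ∨ (D.dim X : ℤ) < j
      · rw [hhi i j hij', hlo _ _ (by omega)]
      · obtain ⟨a, rfl⟩ : ∃ a : ℕ, i = a := ⟨i.toNat, by omega⟩
        obtain ⟨b, rfl⟩ : ∃ b : ℕ, j = b := ⟨j.toNat, by omega⟩
        have ha : a ≤ D.dim X := by omega
        have hb : b ≤ D.dim X := by omega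
        have e1 : (D.dim X : ℤ) - b = ((D.dim X - b : ℕ) : ℤ) := by omega
        have e2 : (D.dim X : ℤ) - a = ((D.dim X - a : ℕ) : ℤ) := by omega
        rw [e1, e2, hnat, hnat, h.serre X b a hb ha]
        have h4 := h.serre Y b a (by rw [← hdim]; exact hb) (by rw [← hdim]; exact ha)
        rw [← hdim] at h4
        rw [h4, h.symm X b a, h.symm Y b a]
        congr 1
        have h5 : D.dim X - b + (D.dim X - a) + (a + b) = 2 * D.dim X := by omega
        have h6 : (-1 : ℤ) ^ (D.dim X - b + (D.dim X - a)) * (-1) ^ (a + b) = 1 := by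
          rw [← pow_add, h5]; simp
        have h7 : (-1 : ℤ) ^ (a + b) * (-1) ^ (a + b) = 1 := by
          rw [← pow_add, ← two_mul]; simp
        have h8 : (-1 : ℤ) ^ (a + b) ≠ 0 := pow_ne_zero _ (by norm_num)
        exact mul_right_cancel₀ h8 (h7.trans h6.symm)

/-- **The differences are arbitrary in every window.** -/
theorem window (h : IsHodge D) {X Y : V} (hXY : D.deq X Y) (hP : Prim (D.E X - D.E Y)) (K : ℕ)
    (r : ℕ → ℕ → ℤ) (hr : ∀ p q, r p q = r q p) (hr2 : ∀ p, Even (r p p)) :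
    ∃ Z : V, ∀ p q : ℕ, D.dim X + 2 ≤ p → D.dim X + 2 ≤ q → p ≤ K → q ≤ K →
      (D.h (X * Z) p q : ℤ) - D.h (Y * Z) p q = r p q := by
  obtain ⟨T, U, hT, hU, hloT, hhiT, hloU, hhiU, hswT⟩ := diff_struct h hXY
  obtain ⟨C, _, hC⟩ := h.ell
  have hC' : D.E C = Ell := hC
  have hgeo : ∀ j : ℕ, ∃ P : V, D.E P = geo (j + 1) := fun j => by
    obtain ⟨P, _, hP⟩ := h.proj j
    exact ⟨P, hP⟩
  have hL := Nk_le_Lin (S := Sums D) (T := T) (U := U) (N := D.dim X) (c := D.dim X + 1)
    (by omega) K hU hloU hhiU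
    (by
      intro i j
      obtain ⟨P, hP⟩ := hgeo j
      have := mem_Sums (D := D) (P * C ^ i)
      rw [exists_pow h hC', hP, mul_comm] at this
      exact this)
    (by
      intro i j
      obtain ⟨P, hP⟩ := hgeo j
      have := mem_Sums (D := D) (P * P * C ^ i)
      rw [exists_pow h hC', h.kunneth, hP] at this
      have e : geo (j + 1) * geo (j + 1) * Ell ^ i = Ell ^ i * geo (j + 1) * geo (j + 1) := by ring
      rwa [e] at this)
  -- the pattern
  have hPT : Prim T := Prim.of_mul (f := 1 - W) (by rw [← hT]; exact hP)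
  let r' : ℤ → ℤ → ℤ := fun i j => (-1) ^ (i.toNat + j.toNat) * r (i.toNat + 1) (j.toNat + 1)
  have hr' : ∀ i j, r' i j = r' j i := fun i j => by
    change _ * _ = _ * _
    rw [hr, add_comm i.toNat]
  obtain ⟨q, hq, hs⟩ := surj hPT hhiT (D.dim X + 1) K (by omega)
    (fun i j => if j < i then r' i j else if i = j then r' i i / 2 else 0)
  obtain ⟨Q', ⟨l, rfl⟩, hQ'⟩ := (sym_mem_Lin hL hq).1
  obtain ⟨Z, hZ⟩ := exists_blow h hT hloT K l
  refine ⟨Z, fun a b ha hb haK hbK => ?_⟩
  have h1 : cf ((D.E X - D.E Y) * D.E Z) a b =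
      (-1) ^ (a + b) * ((D.h (X * Z) a b : ℤ) - D.h (Y * Z) a b) := by
    rw [sub_mul, ← h.kunneth, ← h.kunneth, cf_sub, cf_E h.supp, cf_E h.supp, mul_sub]
  have h2 := hZ a b (by omega) (by omega) (by omega) (by omega)
  rw [h1, cf_add, hhiT _ _ (by omega), zero_add, W, cf_mon_mul,
    hQ' _ _ (by omega) (by omega) (by omega) (by omega)] at h2
  have h3 : T * (q + sw q) = T * q + sw (T * q) := by
    rw [map_mul, hswT]; ring
  rw [h3, cf_add, cf_sw, hs _ _ (by omega) (by omega) (by omega) (by omega),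
    hs _ _ (by omega) (by omega) (by omega) (by omega)] at h2
  have h4 : (if (b : ℤ) - 1 < a - 1 then r' (a - 1) (b - 1) else
      if (a : ℤ) - 1 = b - 1 then r' (a - 1) (a - 1) / 2 else 0) +
      (if (a : ℤ) - 1 < b - 1 then r' (b - 1) (a - 1) else
      if (b : ℤ) - 1 = a - 1 then r' (b - 1) (b - 1) / 2 else 0) = r' (a - 1) (b - 1) := by
    rcases lt_trichotomy a b with hab | hab | hab
    · rw [if_neg (by omega), if_neg (by omega), if_pos (by omega), zero_add, hr']
    · subst hab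
      rw [if_neg (by omega), if_pos rfl]
      have h5 : Even (r' (a - 1) (a - 1)) := by
        change Even (_ * _)
        exact (hr2 _).mul_left _
      obtain ⟨t, ht⟩ := h5
      rw [ht]
      omega
    · rw [if_pos (by omega), if_neg (by omega), if_neg (by omega), add_zero]
  rw [h4] at h2
  have h5 : r' ((a : ℤ) - 1) (b - 1) = (-1) ^ (a + b) * r a b := by
    change (-1) ^ _ * r _ _ = _
    have e1 : ((a : ℤ) - 1).toNat = a - 1 := by omega
    have e2 : ((b : ℤ) - 1).toNat = b - 1 := by omega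
    have e3 : (-1 : ℤ) ^ (a + b) = (-1) ^ (a - 1 + (b - 1)) := by
      have : a + b = (a - 1 + (b - 1)) + 2 := by omega
      rw [this, pow_add]; norm_num
    rw [e1, e2, e3, Nat.sub_add_cancel (by omega), Nat.sub_add_cancel (by omega)]
  rw [h5] at h2
  exact mul_left_cancel₀ (pow_ne_zero _ (by norm_num)) h2

end Pool.Agent.H378.HN
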