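import Pool.Agent.H378.HN.Div

/-!
# The cyclic quotients: removing a prime from the content
-/

set_option autoImplicit false

open AddMonoidAlgebra

namespace Pool.Agent.H378.HN

/-- `f(x ^ k, y ^ k)`. -/
noncomputable def psi (k : ℕ) : Lau ℤ →+* Lau ℤ :=
  mapDomainRingHom ℤ (k • AddMonoidHom.id (ℤ × ℤ))

lemma psi_mon (k : ℕ) (i j : ℤ) : psi k (mon ℤ i j) = mon ℤ (k * i) (k * j) := by
  unfold psi mon
  rw [mapDomainRingHom_apply, mapDomain_single]
  simp

lemma cf_psi {k : ℕ} (hk : 0 < k) (f : Lau ℤ) (i j : ℤ) :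
    cf (psi k f) (k * i) (k * j) = cf f i j := by
  rw [hom_eq_sum, cf_sum]
  have h0 : ((k : ℕ) : ℤ) ≠ 0 := by exact_mod_cast hk.ne'
  by_cases h : (i, j) ∈ f.coeff.support
  · rw [Finset.sum_eq_single (i, j)]
    · rw [cf_smul, psi_mon, cf_mon]; simp
    · intro p _ hp
      rw [cf_smul, psi_mon, cf_mon, if_neg, mul_zero]
      rintro ⟨h1, h2⟩
      exact hp (Prod.ext (mul_left_cancel₀ h0 h1) (mul_left_cancel₀ h0 h2))
    · exact fun h' => absurd h h'
  · have h1 : cf f i j = 0 := by rwa [mem_support, not_not] at h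
    rw [h1]
    refine Finset.sum_eq_zero fun p hp => ?_
    rw [cf_smul, psi_mon, cf_mon, if_neg, mul_zero]
    rintro ⟨h2, h3⟩
    exact h (by
      rw [← mul_left_cancel₀ h0 h2, ← mul_left_cancel₀ h0 h3]; exact hp)

lemma cf_psi_of_not {k : ℕ} (f : Lau ℤ) (i j : ℤ) (h : ¬ ((k : ℤ) ∣ i ∧ (k : ℤ) ∣ j)) :
    cf (psi k f) i j = 0 := by
  rw [hom_eq_sum, cf_sum]
  refine Finset.sum_eq_zero fun p _ => ?_
  rw [cf_smul, psi_mon, cf_mon, if_neg, mul_zero]
  rintro ⟨h1, h2⟩
  exact h ⟨⟨_, h1.symm⟩, ⟨_, h2.symm⟩⟩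

lemma red_eq_zero (ℓ : ℕ) (f : Lau ℤ) : red ℓ f = 0 ↔ ∀ i j, (ℓ : ℤ) ∣ cf f i j := by
  constructor
  · intro h i j
    rw [← ZMod.intCast_zmod_eq_zero_iff_dvd, ← cf_red, h, cf_zero]
  · intro h
    refine ext_cf fun i j => ?_
    rw [cf_red, cf_zero, (ZMod.intCast_zmod_eq_zero_iff_dvd _ _)]
    exact h i j

/-- The primes `ℓ ≠ q`. -/
lemma step_other {q ℓ : ℕ} (hq : q.Prime) (hℓ : ℓ.Prime) (hne : ℓ ≠ q) {r s : Lau ℤ} (hr : Lo 0 r)
    (hr0 : cf r 0 0 = 0) (hs : Lo 0 s) (hs0 : cf s 0 0 = q)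
    (h : red ℓ (r * s + ((q : ℤ) - 1) • psi q r) = 0) : red ℓ r = 0 := by
  rw [red_eq_zero] at h ⊢
  have main : ∀ n : ℕ, ∀ i j : ℤ, 0 ≤ i → 0 ≤ j → i + j = n → (ℓ : ℤ) ∣ cf r i j := by
    intro n
    induction n using Nat.strong_induction_on with
    | _ n ih =>
      intro i j hi hj hn
      -- smaller total degree
      have low : ∀ a b : ℤ, a + b < n → (ℓ : ℤ) ∣ cf r a b := by
        intro a b hab
        by_cases h1 : a < 0 ∨ b < 0
        · rw [hr a b h1]; exact dvd_zero _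
        · exact ih (a + b).toNat (by omega) a b (by omega) (by omega) (by omega)
      have h1 := h i j
      rw [cf_add, cf_smul] at h1
      have h2 : (ℓ : ℤ) ∣ cf (psi q r) i j := by
        by_cases hd : (q : ℤ) ∣ i ∧ (q : ℤ) ∣ j
        · obtain ⟨⟨a, rfl⟩, ⟨b, rfl⟩⟩ := hd
          rw [cf_psi hq.pos]
          have hq2 : (2 : ℤ) ≤ q := by exact_mod_cast hq.two_le
          have ha : 0 ≤ a := nonneg_of_mul_nonneg_right hi (by omega)
          have hb : 0 ≤ b := nonneg_of_mul_nonneg_right hj (by omega)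
          by_cases h0 : a = 0 ∧ b = 0
          · rw [h0.1, h0.2, hr0]; exact dvd_zero _
          · apply low
            have h3 : 0 < a + b := by omega
            have h4 : (q : ℤ) * a + q * b = n := hn
            nlinarith
        · rw [cf_psi_of_not _ _ _ hd]; exact dvd_zero _
      have h3 : (ℓ : ℤ) ∣ cf (r * s) i j := (Int.dvd_add_left (Dvd.dvd.mul_left h2 _)).mp h1
      rw [cf_mul] at h3
      by_cases hmem : (i, j) ∈ r.coeff.support
      · rw [← Finset.add_sum_erase _ _ hmem] at h3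
        have h4 : (ℓ : ℤ) ∣ ∑ p ∈ r.coeff.support.erase (i, j),
            cf r p.1 p.2 * cf s (i - p.1) (j - p.2) := by
          refine Finset.dvd_sum fun p hp => ?_
          have hp1 : ¬ (p.1 = i ∧ p.2 = j) := fun h5 =>
            (Finset.mem_erase.mp hp).1 (Prod.ext h5.1 h5.2)
          by_cases h5 : i - p.1 < 0 ∨ j - p.2 < 0
          · rw [hs _ _ h5, mul_zero]; exact dvd_zero _
          · exact Dvd.dvd.mul_right (low _ _ (by omega)) _
        have h5 := (Int.dvd_add_left h4).mp h3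
        simp only [sub_self] at h5
        rw [hs0] at h5
        rcases (Nat.prime_iff_prime_int.mp hℓ).dvd_or_dvd h5 with h6 | h6
        · exact h6
        · exact absurd ((Nat.prime_dvd_prime_iff_eq hℓ hq).mp (by exact_mod_cast h6)) hne
      · rw [mem_support, not_not] at hmem
        change cf r i j = 0 at hmem
        rw [hmem]; exact dvd_zero _
  intro i j
  by_cases h1 : i < 0 ∨ j < 0
  · rw [hr i j h1]; exact dvd_zero _
  · exact main (i + j).toNat i j (by omega) (by omega) (by omega)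

/-- The prime `ℓ = q`. -/
lemma step_same {q : ℕ} (hq : q.Prime) {r s : Lau ℤ} (hs : red q s = 0)
    (h : red q (r * s + ((q : ℤ) - 1) • psi q r) = 0) : red q r = 0 := by
  have h1 : red q (((q : ℤ) - 1) • psi q r) = 0 := by
    rw [map_add, map_mul, hs, mul_zero, zero_add] at h
    exact h
  rw [red_eq_zero] at h1 ⊢
  intro i j
  have h2 := h1 (q * i) (q * j)
  rw [cf_smul, cf_psi hq.pos] at h2
  have h3 : (((q : ℤ) - 1) * cf r i j) = q * cf r i j - cf r i j := by ring
  rw [h3] at h2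
  exact (dvd_sub_right (Dvd.intro _ rfl)).mp h2

end Pool.Agent.H378.HN
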