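import Pool.Agent.H378.HN.Defs
import Pool.Agent.H378.HN.Step

/-!
# A pair of derived equivalent varieties with primitive difference of the E-polynomials
-/

set_option autoImplicit false

open AddMonoidAlgebra

namespace Pool.Agent.H378.HN

variable {V : Type} {D : HodgeData V}

lemma xy_mon (i j : ℤ) : xy i j = mon ℤ i j := rfl

lemma cf_Ek_one (D : HodgeData V) (X : V) (i j : ℤ) :
    cf (D.E X) i j = ∑ p ∈ Finset.range (D.dim X + 1), ∑ q ∈ Finset.range (D.dim X + 1),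
      ((-1) ^ (p + q) * (D.h X p q : ℤ)) * (if (p : ℤ) = i ∧ (q : ℤ) = j then 1 else 0) := by
  unfold HodgeData.E HodgeData.Ek
  rw [cf_sum]
  refine Finset.sum_congr rfl fun p _ => ?_
  rw [cf_sum]
  refine Finset.sum_congr rfl fun q _ => ?_
  rw [cf_smul, xy_mon, cf_mon]
  simp

lemma E_lo (D : HodgeData V) (X : V) : Lo 0 (D.E X) := by
  intro i j h
  rw [cf_Ek_one]
  refine Finset.sum_eq_zero fun p _ => Finset.sum_eq_zero fun q _ => ?_
  rw [if_neg (by omega), mul_zero]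

lemma E_hi (D : HodgeData V) (X : V) : Hi (D.dim X) (D.E X) := by
  intro i j h
  rw [cf_Ek_one]
  refine Finset.sum_eq_zero fun p hp => Finset.sum_eq_zero fun q hq => ?_
  rw [Finset.mem_range] at hp hq
  rw [if_neg (by omega), mul_zero]

lemma cf_E (h : ∀ X p q, (D.dim X < p ∨ D.dim X < q) → D.h X p q = 0) (X : V) (p q : ℕ) :
    cf (D.E X) p q = (-1) ^ (p + q) * (D.h X p q : ℤ) := by
  by_cases hpq : D.dim X < p ∨ D.dim X < q
  · rw [h X p q hpq, E_hi D X p q (by omega)]; simp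
  · rw [cf_Ek_one, Finset.sum_eq_single p, Finset.sum_eq_single q]
    · simp
    · intro b _ hb
      rw [if_neg (by omega), mul_zero]
    · intro hq; exact absurd (Finset.mem_range.mpr (by omega)) hq
    · intro b _ hb
      refine Finset.sum_eq_zero fun c _ => ?_
      rw [if_neg (by omega), mul_zero]
    · intro hp; exact absurd (Finset.mem_range.mpr (by omega)) hp

lemma psi_E (D : HodgeData V) (k : ℕ) (X : V) : psi k (D.E X) = D.Ek k X := by
  unfold HodgeData.E HodgeData.Ek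
  rw [map_sum]
  refine Finset.sum_congr rfl fun p _ => ?_
  rw [map_sum]
  refine Finset.sum_congr rfl fun q _ => ?_
  rw [map_zsmul, xy_mon, xy_mon, psi_mon]
  simp

/-- The content. -/
lemma exists_content (f : Lau ℤ) {i j : ℤ} (h : cf f i j ≠ 0) :
    ∃ g : ℕ, 1 ≤ g ∧ ∃ f₀ : Lau ℤ, f = (g : ℤ) • f₀ ∧ Prim f₀ := by
  generalize hn : (cf f i j).natAbs = n
  induction n using Nat.strong_induction_on generalizing f with
  | _ n ih =>
    by_cases hP : Prim f
    · exact ⟨1, le_rfl, f, by simp, hP⟩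
    · unfold Prim at hP
      push Not at hP
      obtain ⟨ℓ, hℓ, h0⟩ := hP
      rw [red_eq_zero] at h0
      have h1 : f = (ℓ : ℤ) • (∑ p ∈ f.coeff.support, (cf f p.1 p.2 / ℓ) • mon ℤ p.1 p.2) := by
        conv_lhs => rw [eq_sum f]
        rw [Finset.smul_sum]
        refine Finset.sum_congr rfl fun p _ => ?_
        rw [smul_smul, Int.mul_ediv_cancel' (h0 _ _)]
      set f₁ := ∑ p ∈ f.coeff.support, (cf f p.1 p.2 / ℓ) • mon ℤ p.1 p.2
      have h2 : cf f i j = ℓ * cf f₁ i j := by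
        conv_lhs => rw [h1]
        rw [cf_smul]
      have h3 : cf f₁ i j ≠ 0 := by
        intro h4
        rw [h4, mul_zero] at h2
        exact h h2
      have h5 : (cf f₁ i j).natAbs < n := by
        rw [← hn, h2, Int.natAbs_mul, Int.natAbs_natCast]
        have := hℓ.two_le
        have h6 : 0 < (cf f₁ i j).natAbs := Int.natAbs_pos.mpr h3
        nlinarith
      obtain ⟨g, hg, f₀, h6, h7⟩ := ih _ h5 f₁ h3 rfl
      refine ⟨ℓ * g, Nat.mul_pos hℓ.pos hg, f₀, ?_, h7⟩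
      rw [h1, h6, smul_smul]
      push_cast
      rfl

lemma prim_ell : Prim Ell := by
  apply Prim.of_cf (i := 0) (j := 0)
  have h1 : cf Ell 0 0 = cf (1 - mon ℤ 1 0) 0 0 * cf (1 - mon ℤ 0 1) 0 0 :=
    cf_zero_mul (lo_one.sub (lo_mon (by norm_num) le_rfl)) (lo_one.sub (lo_mon le_rfl (by norm_num)))
  rw [h1, cf_sub, cf_sub, ← mon_zero, cf_mon, cf_mon, cf_mon]
  norm_num

/-- Removing the primes from the content of the difference. -/
theorem exists_prim_gen {deq : V → V → Prop} {e : V → Lau ℤ} {El : Lau ℤ} (hEl : Prim El)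
    (hlo : ∀ X, Lo 0 (e X)) (c1 : ∀ X, cf (e X) 0 0 = 1)
    (hcyc : ∀ q : ℕ, q.Prime → ∃ W : V → V,
      (∀ X, (q : ℤ) • e (W X) = (e X ^ q + ((q : ℤ) - 1) • psi q (e X)) * El) ∧
      ∀ X Y, deq X Y → deq (W X) (W Y))
    {X Y : V} (hXY : deq X Y) {i j : ℤ} (hne : cf (e X - e Y) i j ≠ 0) :
    ∃ X' Y' : V, deq X' Y' ∧ Prim (e X' - e Y') := by
  have h1 : ∃ g : ℕ, 1 ≤ g ∧ ∃ X' Y' : V, deq X' Y' ∧
      ∃ f₀ : Lau ℤ, e X' - e Y' = (g : ℤ) • f₀ ∧ Prim f₀ := by
    obtain ⟨g, h3, f₀, h4, h5⟩ := exists_content _ hne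
    exact ⟨g, h3, X, Y, hXY, f₀, h4, h5⟩
  clear hne
  obtain ⟨g, hg, X, Y, hXY, f₀, h2, h3⟩ := h1
  induction g using Nat.strong_induction_on generalizing X Y f₀ with
  | _ g ih =>
    rcases Nat.lt_or_ge 1 g with hg1 | hg1
    swap
    · have : g = 1 := by omega
      subst this
      refine ⟨X, Y, hXY, ?_⟩
      rw [h2, Nat.cast_one, one_smul]
      exact h3
    -- a prime factor
    obtain ⟨ℓ, hℓ, g', rfl⟩ := Nat.exists_prime_and_dvd (by omega : g ≠ 1)
    have hg' : 1 ≤ g' := by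
      rcases Nat.eq_zero_or_pos g' with rfl | h'
      · simp at hg1
      · exact h'
    have hlt : g' < ℓ * g' := by
      have := hℓ.two_le
      nlinarith
    obtain ⟨W', hW1, hW2⟩ := hcyc ℓ hℓ
    set s : Lau ℤ := ∑ i ∈ Finset.range ℓ, e X ^ i * e Y ^ (ℓ - 1 - i) with hs
    have e1 : e X ^ ℓ - e Y ^ ℓ = (e X - e Y) * s := by
      rw [hs, mul_comm]
      exact ((Commute.all (e X) (e Y)).geom_sum₂_mul ℓ).symm
    have e2 : psi ℓ (e X) - psi ℓ (e Y) = ((ℓ * g' : ℕ) : ℤ) • psi ℓ f₀ := by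
      rw [← map_sub, h2, map_zsmul]
    have e3 : (ℓ : ℤ) • (e (W' X) - e (W' Y)) =
        (ℓ : ℤ) • ((g' : ℤ) • ((f₀ * s + ((ℓ : ℤ) - 1) • psi ℓ f₀) * El)) := by
      rw [smul_sub, hW1, hW1]
      rw [← sub_mul, add_sub_add_comm, e1, ← smul_sub, e2, h2]
      simp only [zsmul_eq_mul]
      push_cast
      ring
    have e4 : e (W' X) - e (W' Y) =
        (g' : ℤ) • ((f₀ * s + ((ℓ : ℤ) - 1) • psi ℓ f₀) * El) := by
      have h4 : (ℓ : ℤ) ≠ 0 := by exact_mod_cast hℓ.ne_zero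
      exact smul_right_injective _ h4 e3
    refine ih g' hlt hg' (W' X) (W' Y) (hW2 _ _ hXY) _ e4 (Prim.mul ?_ hEl)
    -- primitivity
    have hlo' : Lo 0 f₀ := by
      intro i j hij
      have h4 : cf (e X - e Y) i j = 0 := by
        rw [cf_sub, hlo X i j hij, hlo Y i j hij, sub_zero]
      rw [h2, cf_smul] at h4
      refine (mul_eq_zero.mp h4).resolve_left ?_
      have : 0 < ℓ * g' := by omega
      exact_mod_cast this.ne'
    have h00 : cf f₀ 0 0 = 0 := by
      have h4 : cf (e X - e Y) 0 0 = 0 := by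
        rw [cf_sub, c1, c1, sub_self]
      rw [h2, cf_smul] at h4
      refine (mul_eq_zero.mp h4).resolve_left ?_
      have : 0 < ℓ * g' := by omega
      exact_mod_cast this.ne'
    have hslo : Lo 0 s := Lo.sum _ _ fun i _ => ((hlo X).pow i).mul0 ((hlo Y).pow _)
    have hs0 : cf s 0 0 = ℓ := by
      rw [hs, cf_sum]
      rw [Finset.sum_congr rfl fun i _ => by
        rw [cf_zero_mul ((hlo X).pow i) ((hlo Y).pow _), cf_zero_pow (hlo X),
          cf_zero_pow (hlo Y), c1, c1, one_pow, one_pow, mul_one]]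
      simp
    intro ℓ' hℓ' h0
    apply h3 ℓ' hℓ'
    by_cases hne : ℓ' = ℓ
    · subst hne
      refine step_same hℓ ?_ h0
      have h5 : red ℓ' (e X) = red ℓ' (e Y) := by
        rw [← sub_eq_zero, ← map_sub, h2, red_eq_zero]
        intro i j
        rw [cf_smul]
        push_cast
        exact Dvd.dvd.mul_right (Dvd.intro _ rfl) _
      rw [hs, map_sum]
      rw [Finset.sum_congr rfl fun i hi => by
        rw [map_mul, map_pow, map_pow, h5, ← pow_add,
          show i + (ℓ' - 1 - i) = ℓ' - 1 by rw [Finset.mem_range] at hi; omega]]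
      rw [Finset.sum_const, Finset.card_range]
      refine ext_cf fun i j => ?_
      rw [cf_nsmul, cf_zero]
      simp
    · exact step_other hℓ hℓ' hne hlo' h00 hslo hs0 h0

/-- The part with `x ^ 0`. -/
noncomputable def tr (f : Lau ℤ) : Lau ℤ := ofCoeff (f.coeff.filter fun p => p.1 = 0)

lemma cf_tr (f : Lau ℤ) (i j : ℤ) : cf (tr f) i j = if i = 0 then cf f i j else 0 := by
  unfold cf tr
  rw [coeff_ofCoeff, Finsupp.filter_apply]

lemma tr_sub (f g : Lau ℤ) : tr (f - g) = tr f - tr g := by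
  refine ext_cf fun i j => ?_
  rw [cf_sub, cf_tr, cf_tr, cf_tr, cf_sub]
  split_ifs <;> simp

lemma tr_add (f g : Lau ℤ) : tr (f + g) = tr f + tr g := by
  refine ext_cf fun i j => ?_
  rw [cf_add, cf_tr, cf_tr, cf_tr, cf_add]
  split_ifs <;> simp

lemma tr_smul (c : ℤ) (f : Lau ℤ) : tr (c • f) = c • tr f := by
  refine ext_cf fun i j => ?_
  rw [cf_smul, cf_tr, cf_tr, cf_smul]
  split_ifs <;> simp

lemma lo_tr {f : Lau ℤ} (hf : Lo 0 f) : Lo 0 (tr f) := by
  intro i j h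
  rw [cf_tr, hf i j h, ite_self]

lemma tr_mul {f g : Lau ℤ} (hf : Lo 0 f) (hg : Lo 0 g) : tr (f * g) = tr f * tr g := by
  refine ext_cf fun i j => ?_
  rw [cf_tr, cf_mul, cf_mul]
  have hsub : (tr f).coeff.support ⊆ f.coeff.support := by
    intro p hp
    rw [mem_support, cf_tr] at hp
    rw [mem_support]
    intro h
    exact hp (by rw [h, ite_self])
  rw [Finset.sum_subset hsub (f := fun p => cf (tr f) p.1 p.2 * cf (tr g) (i - p.1) (j - p.2))
    (by
      intro p _ hp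
      rw [mem_support, not_not] at hp
      rw [hp, zero_mul])]
  split_ifs with hi
  · subst hi
    refine Finset.sum_congr rfl fun p hp => ?_
    rw [cf_tr, cf_tr]
    by_cases h1 : p.1 = 0
    · rw [if_pos h1, if_pos (by omega)]
    · rw [if_neg h1, zero_mul]
      by_cases h2 : p.1 < 0
      · rw [hf _ _ (Or.inl h2), zero_mul]
      · rw [hg _ _ (Or.inl (by omega)), mul_zero]
  · refine (Finset.sum_eq_zero fun p _ => ?_).symm
    rw [cf_tr, cf_tr]
    by_cases h1 : p.1 = 0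
    · rw [if_neg (by omega : ¬ i - p.1 = 0), mul_zero]
    · rw [if_neg h1, zero_mul]

lemma tr_one : tr 1 = 1 := by
  refine ext_cf fun i j => ?_
  rw [cf_tr, ← mon_zero, cf_mon]
  split_ifs with h1 h2 h2
  · rfl
  · rfl
  · omega
  · rfl

lemma tr_pow {f : Lau ℤ} (hf : Lo 0 f) (n : ℕ) : tr (f ^ n) = tr f ^ n := by
  induction n with
  | zero => rw [pow_zero, pow_zero, tr_one]
  | succ n ih => rw [pow_succ, pow_succ, tr_mul (hf.pow n) hf, ih]

lemma tr_psi {k : ℕ} (hk : 0 < k) (f : Lau ℤ) : tr (psi k f) = psi k (tr f) := by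
  refine ext_cf fun i j => ?_
  rw [cf_tr]
  by_cases h : (k : ℤ) ∣ i ∧ (k : ℤ) ∣ j
  · obtain ⟨⟨a, rfl⟩, ⟨b, rfl⟩⟩ := h
    rw [cf_psi hk, cf_psi hk, cf_tr]
    have h0 : ((k : ℕ) : ℤ) ≠ 0 := by exact_mod_cast hk.ne'
    by_cases h1 : a = 0
    · rw [if_pos h1, if_pos (by rw [h1, mul_zero])]
    · rw [if_neg h1, if_neg (mul_ne_zero h0 h1)]
  · rw [cf_psi_of_not _ _ _ h, cf_psi_of_not _ _ _ h, ite_self]

variable [CommMonoid V]

lemma cf_E_zero (h : IsHodge D) (Z : V) : cf (D.E Z) 0 0 = 1 := by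
  have h4 := cf_E h.supp Z 0 0
  rw [h.conn] at h4
  simpa using h4

/-- If the Hodge numbers are not derived invariants, there is a pair of derived equivalent varieties with
primitive difference of the E-polynomials. -/
theorem exists_prim (h : IsHodge D) {X Y : V} (hXY : D.deq X Y) {p q : ℕ}
    (hpq : D.h X p q ≠ D.h Y p q) :
    ∃ X' Y' : V, D.deq X' Y' ∧ Prim (D.E X' - D.E Y') := by
  refine exists_prim_gen prim_ell (E_lo D) (cf_E_zero h) ?_ hXY (i := p) (j := q) ?_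
  · intro q hq
    obtain ⟨W', hW1, hW2⟩ := h.cyc q hq
    refine ⟨W', fun X => ?_, hW2⟩
    rw [psi_E]
    exact hW1 X
  · rw [cf_sub, cf_E h.supp, cf_E h.supp, ← mul_sub]
    refine mul_ne_zero (pow_ne_zero _ (by norm_num)) ?_
    rw [sub_ne_zero]
    exact_mod_cast hpq

/-- The same for the numbers `h^{0,q}`. -/
theorem exists_prim_row (h : IsHodge D) {X Y : V} (hXY : D.deq X Y) {q : ℕ}
    (hpq : D.h X 0 q ≠ D.h Y 0 q) :
    ∃ X' Y' : V, D.deq X' Y' ∧ Prim (tr (D.E X') - tr (D.E Y')) := by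
  have hEl : Prim (tr Ell) := by
    apply Prim.of_cf (i := 0) (j := 0)
    rw [cf_tr, if_pos rfl]
    have h1 : cf Ell 0 0 = cf (1 - mon ℤ 1 0) 0 0 * cf (1 - mon ℤ 0 1) 0 0 :=
      cf_zero_mul (lo_one.sub (lo_mon (by norm_num) le_rfl))
        (lo_one.sub (lo_mon le_rfl (by norm_num)))
    rw [h1, cf_sub, cf_sub, ← mon_zero, cf_mon, cf_mon, cf_mon]
    norm_num
  refine exists_prim_gen (e := fun X => tr (D.E X)) hEl (fun X => lo_tr (E_lo D X))
    (fun X => by rw [cf_tr, if_pos rfl, cf_E_zero h]) ?_ hXY (i := 0) (j := q) ?_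
  · intro q hq
    obtain ⟨W', hW1, hW2⟩ := h.cyc q hq
    refine ⟨W', fun X => ?_, hW2⟩
    have h1 : (q : ℤ) • D.E (W' X) = (D.E X ^ q + ((q : ℤ) - 1) • psi q (D.E X)) * Ell := by
      rw [psi_E]
      exact hW1 X
    have hlo : Lo 0 (psi q (D.E X)) := by
      intro i j hij
      by_cases hd : (q : ℤ) ∣ i ∧ (q : ℤ) ∣ j
      · obtain ⟨⟨a, rfl⟩, ⟨b, rfl⟩⟩ := hd
        rw [cf_psi hq.pos]
        apply E_lo D X
        have hq0 : (0 : ℤ) < q := by exact_mod_cast hq.pos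
        rcases hij with h2 | h2
        · left; by_contra h3; push Not at h3; have := mul_nonneg hq0.le h3; omega
        · right; by_contra h3; push Not at h3; have := mul_nonneg hq0.le h3; omega
      · exact cf_psi_of_not _ _ _ hd
    rw [← tr_smul, h1, tr_mul (((E_lo D X).pow q).add (hlo.smul _)) lo_ell, tr_add,
      tr_pow (E_lo D X), tr_smul, tr_psi hq.pos]
  · rw [cf_sub, cf_tr, cf_tr, if_pos rfl, if_pos rfl]
    have h1 := cf_E h.supp X 0 q
    have h2 := cf_E h.supp Y 0 q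
    rw [Nat.cast_zero] at h1 h2
    rw [h1, h2, ← mul_sub]
    refine mul_ne_zero (pow_ne_zero _ (by norm_num)) ?_
    rw [sub_ne_zero]
    exact_mod_cast hpq

end Pool.Agent.H378.HN
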