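import Pool.Agent.H378.HN.Pair

/-!
# The numbers `h^{0,q}`
-/

set_option autoImplicit false

open AddMonoidAlgebra

namespace Pool.Agent.H378.HN

variable {V : Type} {D : HodgeData V} [CommMonoid V]

/-- The derived invariance of the numbers `h^{0,q}` follows from the derived invariance modulo `N` for
infinitely many `q`. -/
theorem row (h : IsHodge D) {N : ℕ} (hN : 2 ≤ N)
    (hc : ∀ c : ℕ, ∃ q ≥ c, ∀ X Y, D.deq X Y → D.h X 0 q ≡ D.h Y 0 q [MOD N]) :
    ∀ X Y, D.deq X Y → ∀ q, D.h X 0 q = D.h Y 0 q := by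
  intro X₀ Y₀ hXY₀ q₀
  by_contra hne
  obtain ⟨X, Y, hXY, hP⟩ := exists_prim_row h hXY₀ hne
  obtain ⟨ℓ, hℓ, hd⟩ := Nat.exists_prime_and_dvd (by omega : N ≠ 1)
  have h1 := hP ℓ hℓ
  rw [← tr_sub, Ne, red_eq_zero] at h1
  push Not at h1
  obtain ⟨i, j, hij⟩ := h1
  rw [cf_tr] at hij
  have hi : i = 0 := by
    by_contra h2
    rw [if_neg h2] at hij
    exact hij (dvd_zero _)
  subst hi
  rw [if_pos rfl] at hij
  set R := D.E X - D.E Y with hR
  have hdim := h.deq_dim X Y hXY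
  have hlo : Lo 0 R := (E_lo D X).sub (E_lo D Y)
  have hhi : Hi (D.dim X) R := by
    intro i j hij
    rw [hR, cf_sub, E_hi D X i j hij, E_hi D Y i j (by rw [← hdim]; exact hij), sub_zero]
  have hj : 0 ≤ j := by
    by_contra h2
    exact hij (by rw [hlo 0 j (Or.inr (by omega))]; exact dvd_zero _)
  obtain ⟨u, rfl⟩ : ∃ u : ℕ, j = u := ⟨j.toNat, by omega⟩
  obtain ⟨q, hq, hmod⟩ := hc (D.dim X + u + 1)
  obtain ⟨Z, hZ1, hZ2, hZ3⟩ := h.cy (q - u) (by omega)
  have h2 : cf (R * D.E Z) 0 q = cf R 0 u * cf (D.E Z) 0 ((q - u : ℕ) : ℤ) := by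
    rw [cf_mul]
    have hother : ∀ p ∈ R.coeff.support, p ≠ ((0 : ℤ), (u : ℤ)) →
        cf R p.1 p.2 * cf (D.E Z) (0 - p.1) ((q : ℤ) - p.2) = 0 := by
      intro p hp hpu
      rw [mem_support] at hp
      have h3 : 0 ≤ p.1 ∧ 0 ≤ p.2 := by
        by_contra h4
        exact hp (hlo _ _ (by omega))
      have h4 : p.2 ≤ D.dim X := by
        by_contra h5
        exact hp (hhi _ _ (by omega))
      by_cases h5 : p.1 = 0
      · have h6 : p.2 ≠ u := fun h7 => hpu (Prod.ext h5 h7)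
        obtain ⟨b, hb⟩ : ∃ b : ℕ, (q : ℤ) - p.2 = b := ⟨((q : ℤ) - p.2).toNat, by omega⟩
        have h7 : cf (D.E Z) 0 (b : ℤ) = 0 := by
          have h8 := cf_E h.supp Z 0 b
          rw [Nat.cast_zero] at h8
          rw [h8]
          by_cases h9 : b < q - u
          · rw [hZ3 b (by omega) h9]; simp
          · rw [h.supp Z 0 b (Or.inr (by omega))]; simp
        rw [h5, sub_zero, hb, h7, mul_zero]
      · rw [E_lo D Z _ _ (Or.inl (by omega)), mul_zero]
    by_cases hmem : ((0 : ℤ), (u : ℤ)) ∈ R.coeff.support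
    · rw [Finset.sum_eq_single_of_mem _ hmem hother]
      simp only [sub_zero]
      congr 2
      omega
    · have h3 : cf R 0 u = 0 := by
        rw [mem_support, not_not] at hmem; exact hmem
      rw [h3, zero_mul]
      refine Finset.sum_eq_zero fun p hp => hother p hp ?_
      rintro rfl
      exact hmem hp
  have h3 : cf (R * D.E Z) 0 q = (-1) ^ q * ((D.h (X * Z) 0 q : ℤ) - D.h (Y * Z) 0 q) := by
    have h4 := cf_E h.supp (X * Z) 0 q
    have h5 := cf_E h.supp (Y * Z) 0 q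
    rw [Nat.cast_zero, zero_add] at h4 h5
    rw [hR, sub_mul, ← h.kunneth, ← h.kunneth, cf_sub, h4, h5, mul_sub]
  have h4 : (N : ℤ) ∣ cf (R * D.E Z) 0 q := by
    rw [h3]
    exact Dvd.dvd.mul_left (Nat.modEq_iff_dvd.mp (hmod _ _ (h.deq_mul X Y Z hXY)).symm) _
  have h5 := (Int.natCast_dvd_natCast.mpr hd).trans h4
  have h6 := cf_E h.supp Z 0 (q - u)
  rw [Nat.cast_zero, zero_add, hZ2, Nat.cast_one, mul_one] at h6
  rw [h2, h6] at h5
  rcases (Nat.prime_iff_prime_int.mp hℓ).dvd_or_dvd h5 with h7 | h7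
  · exact hij h7
  · have h8 := (Nat.prime_iff_prime_int.mp hℓ).dvd_of_dvd_pow h7
    have h9 : (ℓ : ℤ) ∣ 1 := (dvd_neg).mp h8
    have h10 := Int.le_of_dvd one_pos h9
    have := hℓ.two_le
    omega

end Pool.Agent.H378.HN
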