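import Pool.Agent.H378.HN.Win

/-!
# Symmetric polynomials, and surjectivity of the multiplication by a primitive polynomial in a window
-/

set_option autoImplicit false

open AddMonoidAlgebra

namespace Pool.Agent.H378.HN

/-- The exchange of `x` and `y`. -/
noncomputable def sw : Lau ℤ ≃+* Lau ℤ := mapDomainRingEquiv ℤ AddEquiv.prodComm

lemma cf_sw (f : Lau ℤ) (i j : ℤ) : cf (sw f) i j = cf f j i := by
  unfold cf sw
  rw [coeff_mapDomainRingEquiv, Finsupp.equivMapDomain_apply]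
  rfl

lemma sw_mon (a b : ℤ) : sw (mon ℤ a b) = mon ℤ b a := by
  refine ext_cf fun i j => ?_
  rw [cf_sw, cf_mon, cf_mon]
  simp only [and_comm]

section

variable {S : AddSubmonoid (Lau ℤ)} {T U : Lau ℤ} {N c : ℤ} {K : ℕ}

lemma mon_mem_Lin (h : ∀ i, Nk i ≤ Lin S T c K) (a b : ℕ) :
    mon ℤ a b + mon ℤ b a ∈ Lin S T c K := by
  wlog hab : b ≤ a generalizing a b
  · rw [add_comm]; exact this b a (by omega)
  obtain ⟨k, rfl⟩ : ∃ k, a = b + k := ⟨a - b, by omega⟩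
  have h1 : mon ℤ ((b + k : ℕ) : ℤ) b + mon ℤ b ((b + k : ℕ) : ℤ) =
      (-1 : ℤ) ^ k • (pp k * W ^ b) := by
    unfold pp
    rw [x_pow, y_pow, W_pow, ← smul_add, smul_mul_assoc, smul_smul, ← pow_add, ← two_mul,
      Even.neg_one_pow (even_two_mul k), one_smul, add_mul, mon_mul_mon, mon_mul_mon]
    congr 2 <;> push_cast <;> ring
  rw [h1]
  refine zsmul_mem ?_ _
  exact h (k + 1) (Nk.mul_W_pow (pp_mem k).1 b)

lemma sym_mem_Lin (h : ∀ i, Nk i ≤ Lin S T c K) {q : Lau ℤ} (hq : Lo 0 q) :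
    q + sw q ∈ Lin S T c K := by
  have h1 : q + sw q = ∑ p ∈ q.coeff.support, cf q p.1 p.2 • (mon ℤ p.1 p.2 + mon ℤ p.2 p.1) := by
    conv_lhs => rw [eq_sum q]
    rw [map_sum, ← Finset.sum_add_distrib]
    refine Finset.sum_congr rfl fun p _ => ?_
    rw [smul_add, map_zsmul, sw_mon]
  rw [h1]
  refine sum_mem fun p hp => zsmul_mem ?_ _
  rw [mem_support] at hp
  have h2 : 0 ≤ p.1 ∧ 0 ≤ p.2 := by
    by_contra h3
    exact hp (hq _ _ (by omega))
  obtain ⟨a, ha⟩ : ∃ a : ℕ, p.1 = a := ⟨p.1.toNat, by omega⟩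
  obtain ⟨b, hb⟩ : ∃ b : ℕ, p.2 = b := ⟨p.2.toNat, by omega⟩
  rw [ha, hb]
  exact mon_mem_Lin h a b

end

section primitive

/-- Reduction modulo `ℓ`. -/
noncomputable def red (ℓ : ℕ) : Lau ℤ →+* Lau (ZMod ℓ) :=
  mapRingHom (ℤ × ℤ) (Int.castRingHom (ZMod ℓ))

lemma cf_red (ℓ : ℕ) (f : Lau ℤ) (i j : ℤ) : cf (red ℓ f) i j = ((cf f i j : ℤ) : ZMod ℓ) := by
  unfold cf red
  rw [coeff_mapRingHom]
  rfl

/-- The coefficients have no common prime divisor. -/
def Prim (f : Lau ℤ) : Prop := ∀ ℓ : ℕ, ℓ.Prime → red ℓ f ≠ 0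

lemma Prim.mul {f g : Lau ℤ} (hf : Prim f) (hg : Prim g) : Prim (f * g) := by
  intro ℓ hℓ
  have := Fact.mk hℓ
  rw [map_mul]
  exact mul_ne_zero (hf ℓ hℓ) (hg ℓ hℓ)

lemma Prim.of_mul {f g : Lau ℤ} (h : Prim (f * g)) : Prim g := by
  intro ℓ hℓ h1
  exact h ℓ hℓ (by rw [map_mul, h1, mul_zero])

lemma Prim.of_cf {f : Lau ℤ} {i j : ℤ} (h : cf f i j = 1) : Prim f := by
  intro ℓ hℓ h1
  have := Fact.mk hℓ
  have h2 := cf_red ℓ f i j
  rw [h1, h, cf_zero] at h2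
  simp at h2

/-- A proper subgroup of `ℤ^ι` is contained in the kernel of a form modulo a prime. -/
lemma exists_form {ι : Type} [Fintype ι] [DecidableEq ι] (G : Submodule ℤ (ι → ℤ)) (hG : G ≠ ⊤) :
    ∃ ℓ : ℕ, ℓ.Prime ∧ ∃ lam : ι → ZMod ℓ, lam ≠ 0 ∧
      ∀ s ∈ G, ∑ i, lam i * ((s i : ℤ) : ZMod ℓ) = 0 := by
  obtain ⟨m, hm, hGm⟩ := (eq_top_or_exists_le_coatom G).resolve_left hG
  have h1 : IsSimpleModule ℤ ((ι → ℤ) ⧸ m) := isSimpleModule_iff_isCoatom.mpr hm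
  obtain ⟨I, hI, ⟨e⟩⟩ := isSimpleModule_iff_quot_maximal.mp h1
  -- the prime
  obtain ⟨ℓ, hℓ, hIℓ⟩ : ∃ ℓ : ℕ, ℓ.Prime ∧ I = Ideal.span {(ℓ : ℤ)} := by
    obtain ⟨n, hn⟩ : ∃ n : ℤ, I = Ideal.span {n} := by
      have := IsPrincipalIdealRing.principal I
      exact ⟨_, (Ideal.span_singleton_generator I).symm⟩
    have hn0 : n ≠ 0 := by
      rintro rfl
      rw [Ideal.span_singleton_eq_bot.mpr rfl] at hn
      rw [hn] at hI
      have h2 : (⊥ : Ideal ℤ) < Ideal.span {(2 : ℤ)} := by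
        rw [bot_lt_iff_ne_bot, Ne, Ideal.span_singleton_eq_bot]
        norm_num
      have h3 := hI.1.2 _ h2
      rw [Ideal.span_singleton_eq_top, Int.isUnit_iff] at h3
      omega
    have hp : Prime n := by
      rw [← Ideal.span_singleton_prime hn0, ← hn]
      exact hI.isPrime
    refine ⟨n.natAbs, Int.prime_iff_natAbs_prime.mp hp, ?_⟩
    rw [hn]
    exact (Int.span_natAbs n).symm
  refine ⟨ℓ, hℓ, ?_⟩
  subst hIℓ
  -- the form
  let φ : (ι → ℤ) →+ ZMod ℓ :=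
    ((Int.quotientSpanNatEquivZMod ℓ).toRingHom.toAddMonoidHom.comp
      e.toLinearMap.toAddMonoidHom).comp (Submodule.mkQ m).toAddMonoidHom
  have hφm : ∀ s, φ s = 0 ↔ s ∈ m := by
    intro s
    change (Int.quotientSpanNatEquivZMod ℓ) (e (Submodule.mkQ m s)) = 0 ↔ _
    rw [map_eq_zero_iff _ (Int.quotientSpanNatEquivZMod ℓ).injective,
      map_eq_zero_iff _ e.injective, Submodule.mkQ_apply, Submodule.Quotient.mk_eq_zero]
  refine ⟨fun i => φ (Pi.single i 1), ?_, ?_⟩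
  · intro h0
    apply hm.1
    rw [eq_top_iff]
    rintro s -
    rw [← hφm]
    have h2 : s = ∑ i, s i • Pi.single i (1 : ℤ) := by
      funext j
      rw [Finset.sum_apply, Finset.sum_eq_single j]
      · simp
      · intro i _ hij
        simp [Ne.symm hij]
      · simp
    rw [h2, map_sum]
    refine Finset.sum_eq_zero fun i _ => ?_
    rw [map_zsmul]
    have := congrFun h0 i
    simp only [Pi.zero_apply] at this
    rw [this, smul_zero]
  · intro s hs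
    have h1 := (hφm s).mpr (hGm hs)
    have h2 : s = ∑ i, s i • Pi.single i (1 : ℤ) := by
      funext j
      rw [Finset.sum_apply, Finset.sum_eq_single j]
      · simp
      · intro i _ hij
        simp [Ne.symm hij]
      · simp
    rw [h2, map_sum] at h1
    rw [← h1]
    refine Finset.sum_congr rfl fun i _ => ?_
    rw [map_zsmul, zsmul_eq_mul, mul_comm]

/-- Multiplication by a primitive polynomial is surjective in a window. -/
theorem surj {T : Lau ℤ} {N : ℤ} (hT : Prim T) (hhi : Hi N T) (c K : ℤ) (hc : N ≤ c)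
    (s : ℤ → ℤ → ℤ) : ∃ q : Lau ℤ, Lo 0 q ∧
      ∀ i j : ℤ, c ≤ i → c ≤ j → i ≤ K → j ≤ K → cf (T * q) i j = s i j := by
  classical
  let ι : Type := (Finset.Icc c K) × (Finset.Icc c K)
  let G : Submodule ℤ (ι → ℤ) :=
    { carrier := {s | ∃ q : Lau ℤ, Lo 0 q ∧ ∀ p : ι, cf (T * q) p.1 p.2 = s p}
      zero_mem' := ⟨0, fun _ _ _ => rfl, fun p => by rw [mul_zero]; rfl⟩
      add_mem' := by
        rintro a b ⟨q, h1, h2⟩ ⟨q', h3, h4⟩
        refine ⟨q + q', h1.add h3, fun p => ?_⟩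
        rw [mul_add, cf_add, h2, h4]; rfl
      smul_mem' := by
        rintro a b ⟨q, h1, h2⟩
        refine ⟨a • q, h1.smul a, fun p => ?_⟩
        rw [mul_smul_comm, cf_smul, h2]; rfl }
  have hG : G = ⊤ := by
    by_contra hG
    obtain ⟨ℓ, hℓ, lam, hlam, h1⟩ := exists_form G hG
    have := Fact.mk hℓ
    let g : Lau (ZMod ℓ) := ∑ p : ι, lam p • mon (ZMod ℓ) (-(p.1 : ℤ)) (-(p.2 : ℤ))
    have h2 : red ℓ T * g = 0 := by
      refine ext_cf fun i j => ?_
      have h3 : cf (red ℓ T * g) i j =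
          ∑ p : ι, lam p * ((cf T (i + p.1) (j + p.2) : ℤ) : ZMod ℓ) := by
        rw [Finset.mul_sum, cf_sum]
        refine Finset.sum_congr rfl fun p _ => ?_
        rw [mul_smul_comm, cf_smul, cf_mul_mon, cf_red, sub_neg_eq_add, sub_neg_eq_add]
      rw [h3, cf_zero]
      by_cases hij : i ≤ 0 ∧ j ≤ 0
      · have h4 := h1 (fun p => cf T (i + p.1) (j + p.2))
          ⟨mon ℤ (-i) (-j), lo_mon (by omega) (by omega), fun p => by
            rw [cf_mul_mon]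
            congr 1 <;> ring⟩
        exact h4
      · refine Finset.sum_eq_zero fun p _ => ?_
        have h5 := (Finset.mem_Icc.mp p.1.2).1
        have h6 := (Finset.mem_Icc.mp p.2.2).1
        rw [hhi _ _ (by omega)]
        simp
    have h3 : g = 0 := (mul_eq_zero.mp h2).resolve_left (hT ℓ hℓ)
    apply hlam
    funext p
    have h4 : cf g (-(p.1 : ℤ)) (-(p.2 : ℤ)) = lam p := by
      change cf (∑ p : ι, lam p • mon (ZMod ℓ) (-(p.1 : ℤ)) (-(p.2 : ℤ))) _ _ = _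
      rw [cf_sum, Finset.sum_eq_single p]
      · rw [cf_smul, cf_mon, if_pos ⟨rfl, rfl⟩, mul_one]
      · intro p' _ hp'
        rw [cf_smul, cf_mon, if_neg, mul_zero]
        rintro ⟨h5, h6⟩
        exact hp' (Prod.ext (Subtype.ext (neg_injective h5)) (Subtype.ext (neg_injective h6)))
      · exact fun h => absurd (Finset.mem_univ _) h
    rw [h3, cf_zero] at h4
    exact h4.symm
  have hs : (fun p : ι => s p.1 p.2) ∈ G := by rw [hG]; trivial
  obtain ⟨q, h1, h2⟩ := hs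
  refine ⟨q, h1, fun i j a b a' b' => ?_⟩
  exact h2 (⟨i, Finset.mem_Icc.mpr ⟨a, a'⟩⟩, ⟨j, Finset.mem_Icc.mpr ⟨b, b'⟩⟩)

end primitive

end Pool.Agent.H378.HN
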