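import Pool.Agent.H378.HN.Lau

/-!
# Sums of E-polynomials realise all symmetric polynomials in a window
-/

set_option autoImplicit false

open AddMonoidAlgebra

namespace Pool.Agent.H378.HN

/-- `x y`. -/
noncomputable def W : Lau ℤ := mon ℤ 1 1

/-- `(1 - x) (1 - y)`, the E-polynomial of elliptic curves. -/
noncomputable def Ell : Lau ℤ := (1 - mon ℤ 1 0) * (1 - mon ℤ 0 1)

/-- `1 + w + ... + w ^ (n - 1)`, the E-polynomial of the projective space of dimension `n - 1`. -/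
noncomputable def geo (n : ℕ) : Lau ℤ := ∑ l ∈ Finset.range n, W ^ l

/-- `(-x) ^ k + (-y) ^ k`. -/
noncomputable def pp (k : ℕ) : Lau ℤ := (-mon ℤ 1 0) ^ k + (-mon ℤ 0 1) ^ k

lemma xy_eq : (-mon ℤ 1 0) * (-mon ℤ 0 1) = W := by
  rw [neg_mul_neg, mon_mul_mon]; simp [W]

lemma ell_eq : Ell = 1 + (-mon ℤ 1 0) + (-mon ℤ 0 1) + W := by
  rw [← xy_eq]; unfold Ell; ring

lemma pp_zero : pp 0 = 2 := by unfold pp; norm_num

lemma pp_one : pp 1 = Ell - (1 + W) := by unfold pp; rw [ell_eq]; ring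

lemma pp_rec (k : ℕ) : pp (k + 2) = pp (k + 1) * Ell - pp (k + 1) * (1 + W) - pp k * W := by
  have h : Ell = 1 + W + (-mon ℤ 1 0) + (-mon ℤ 0 1) := by rw [ell_eq]; ring
  rw [h, ← xy_eq]; unfold pp; ring

lemma W_pow (n : ℕ) : W ^ n = mon ℤ n n := by
  unfold W; rw [mon_pow]; simp

lemma lo_W_pow (n : ℕ) : Lo n (W ^ n) := by
  rw [W_pow]; exact lo_mon le_rfl le_rfl

lemma lo_W : Lo 0 W := lo_mon (by norm_num) (by norm_num)

lemma lo_geo (n : ℕ) : Lo 0 (geo n) := Lo.sum _ _ fun i _ => (lo_W.pow i)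

lemma lo_ell : Lo 0 Ell :=
  (lo_one.sub (lo_mon (by norm_num) le_rfl)).mul0 (lo_one.sub (lo_mon le_rfl (by norm_num)))

lemma geo_mul (n : ℕ) : (1 - W) * geo n = 1 - W ^ n := by
  unfold geo; exact mul_neg_geom_sum W n

lemma geo_succ (n : ℕ) : geo (n + 1) = geo n + W ^ n := by
  unfold geo; rw [Finset.sum_range_succ]

/-- The span of the products of a power `< i` of `Ell` and a power of `w`. -/
noncomputable def Nk (i : ℕ) : AddSubgroup (Lau ℤ) :=
  AddSubgroup.closure {f | ∃ a b : ℕ, a < i ∧ f = Ell ^ a * W ^ b}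

lemma Nk.mem {i a : ℕ} (h : a < i) (b : ℕ) : Ell ^ a * W ^ b ∈ Nk i :=
  AddSubgroup.subset_closure ⟨a, b, h, rfl⟩

lemma Nk.mem' {i a : ℕ} (h : a < i) : Ell ^ a ∈ Nk i := by
  have := Nk.mem h 0
  rwa [pow_zero, mul_one] at this

lemma Nk.one {i : ℕ} (h : 0 < i) : (1 : Lau ℤ) ∈ Nk i := by
  have := Nk.mem' h
  rwa [pow_zero] at this

lemma Nk.mono {i j : ℕ} (h : i ≤ j) : Nk i ≤ Nk j := by
  refine AddSubgroup.closure_mono ?_
  rintro f ⟨a, b, h1, rfl⟩
  exact ⟨a, b, by omega, rfl⟩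

lemma Nk.mul_W {i : ℕ} {f : Lau ℤ} (h : f ∈ Nk i) : f * W ∈ Nk i := by
  unfold Nk at h
  induction h using AddSubgroup.closure_induction with
  | mem x hx =>
    obtain ⟨a, b, h1, rfl⟩ := hx
    rw [mul_assoc, ← pow_succ]
    exact Nk.mem h1 _
  | zero => rw [zero_mul]; exact zero_mem _
  | add x y _ _ hx hy => rw [add_mul]; exact add_mem hx hy
  | neg x _ hx => rw [neg_mul]; exact neg_mem hx

lemma Nk.mul_W_pow {i : ℕ} {f : Lau ℤ} (h : f ∈ Nk i) (n : ℕ) : f * W ^ n ∈ Nk i := by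
  induction n with
  | zero => rwa [pow_zero, mul_one]
  | succ n ih => rw [pow_succ, ← mul_assoc]; exact Nk.mul_W ih

lemma Nk.mul_geo {i : ℕ} {f : Lau ℤ} (h : f ∈ Nk i) (n : ℕ) : f * geo n ∈ Nk i := by
  unfold geo
  rw [Finset.mul_sum]
  exact sum_mem fun l _ => Nk.mul_W_pow h l

lemma Nk.mul_ell {i : ℕ} {f : Lau ℤ} (h : f ∈ Nk i) : f * Ell ∈ Nk (i + 1) := by
  unfold Nk at h
  induction h using AddSubgroup.closure_induction with
  | mem x hx =>
    obtain ⟨a, b, h1, rfl⟩ := hx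
    have : Ell ^ a * W ^ b * Ell = Ell ^ (a + 1) * W ^ b := by ring
    rw [this]
    exact Nk.mem (by omega) _
  | zero => rw [zero_mul]; exact zero_mem _
  | add x y _ _ hx hy => rw [add_mul]; exact add_mem hx hy
  | neg x _ hx => rw [neg_mul]; exact neg_mem hx

lemma pp_mem (k : ℕ) : pp k ∈ Nk (k + 1) ∧ pp (k + 1) - Ell ^ (k + 1) ∈ Nk (k + 1) := by
  induction k with
  | zero =>
    have h1 : (1 : Lau ℤ) ∈ Nk 1 := Nk.one one_pos
    refine ⟨?_, ?_⟩
    · rw [pp_zero, ← one_add_one_eq_two]; exact add_mem h1 h1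
    · have h2 : pp (0 + 1) - Ell ^ (0 + 1) = -(1 + 1 * W) := by
        rw [zero_add, pp_one]; ring
      rw [h2]
      exact neg_mem (add_mem h1 (Nk.mul_W h1))
  | succ k ih =>
    obtain ⟨h1, h2⟩ := ih
    have h3 : pp (k + 1) ∈ Nk (k + 1 + 1) := by
      have h4 : pp (k + 1) = (pp (k + 1) - Ell ^ (k + 1)) + Ell ^ (k + 1) := by ring
      rw [h4]
      exact add_mem (Nk.mono (by omega) h2) (Nk.mem' (by omega))
    refine ⟨h3, ?_⟩
    have h5 : pp (k + 1 + 1) - Ell ^ (k + 1 + 1) =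
        (pp (k + 1) - Ell ^ (k + 1)) * Ell - (pp (k + 1) + pp (k + 1) * W) - pp k * W := by
      rw [pp_rec]; ring
    rw [h5]
    exact sub_mem (sub_mem (Nk.mul_ell h2) (add_mem h3 (Nk.mul_W h3)))
      (Nk.mono (by omega) (Nk.mul_W h1))

/-- `p` for `k = 0` is `1`. -/
noncomputable def qq (k : ℕ) : Lau ℤ := if k = 0 then 1 else pp k

lemma qq_mem (k : ℕ) : Ell ^ k - qq k ∈ Nk k := by
  unfold qq
  rcases k with _ | k
  · rw [if_pos rfl, pow_zero, sub_self]; exact zero_mem _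
  · rw [if_neg (Nat.succ_ne_zero k), ← neg_sub]
    exact neg_mem (pp_mem k).2

lemma x_pow (k : ℕ) : (-mon ℤ 1 0) ^ k = (-1 : ℤ) ^ k • mon ℤ k 0 := by
  rw [neg_pow, mon_pow]
  simp only [mul_one, mul_zero]
  rw [zsmul_eq_mul]; push_cast; rfl

lemma y_pow (k : ℕ) : (-mon ℤ 0 1) ^ k = (-1 : ℤ) ^ k • mon ℤ 0 k := by
  rw [neg_pow, mon_pow]
  simp only [mul_one, mul_zero]
  rw [zsmul_eq_mul]; push_cast; rfl

/-- `U p_k` vanishes in the window. -/
lemma win_qq {U : Lau ℤ} {N c : ℤ} (hU : Hi N U) (hc : N < c) (K : ℤ) (k : ℕ) :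
    EqW c K (U * qq k) 0 := by
  intro i j h1 h2 _ _
  rw [cf_zero]
  unfold qq
  split_ifs with h
  · rw [mul_one]; exact hU i j (by omega)
  · unfold pp
    rw [x_pow, y_pow, mul_add, mul_smul_comm, mul_smul_comm, cf_add, cf_zsmul, cf_zsmul, cf_mul_mon,
      cf_mul_mon, hU _ _ (by omega), hU _ _ (by omega)]
    simp

/-- The polynomials `Q` such that `T Q` is, in the window, `T Q'` with `Q'` in `S`. -/
noncomputable def Re (S : AddSubmonoid (Lau ℤ)) (T : Lau ℤ) (c K : ℤ) : AddSubmonoid (Lau ℤ) where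
  carrier := {Q | ∃ Q' ∈ S, EqW c K (T * Q') (T * Q)}
  zero_mem' := ⟨0, zero_mem _, EqW.refl _ _ _⟩
  add_mem' := by
    rintro a b ⟨a', h1, h2⟩ ⟨b', h3, h4⟩
    refine ⟨a' + b', add_mem h1 h3, ?_⟩
    rw [mul_add, mul_add]
    exact h2.add h4

/-- The polynomials `Q` with `Q` and `-Q` in `Re`. -/
noncomputable def Lin (S : AddSubmonoid (Lau ℤ)) (T : Lau ℤ) (c K : ℤ) : AddSubgroup (Lau ℤ) where
  carrier := {Q | Q ∈ Re S T c K ∧ -Q ∈ Re S T c K}
  zero_mem' := ⟨zero_mem _, by rw [neg_zero]; exact zero_mem _⟩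
  add_mem' := by
    rintro a b ⟨h1, h2⟩ ⟨h3, h4⟩
    refine ⟨add_mem h1 h3, ?_⟩
    rw [neg_add]
    exact add_mem h2 h4
  neg_mem' := by
    rintro a ⟨h1, h2⟩
    exact ⟨h2, by rwa [neg_neg]⟩

lemma Re.congr {S : AddSubmonoid (Lau ℤ)} {T : Lau ℤ} {c K : ℤ} {Q Q' : Lau ℤ}
    (h : Q ∈ Re S T c K) (e : EqW c K (T * Q) (T * Q')) : Q' ∈ Re S T c K := by
  obtain ⟨R, h1, h2⟩ := h
  exact ⟨R, h1, h2.trans e⟩

lemma mem_Re {S : AddSubmonoid (Lau ℤ)} {T : Lau ℤ} {c K : ℤ} {Q : Lau ℤ} (h : Q ∈ S) :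
    Q ∈ Re S T c K := ⟨Q, h, EqW.refl _ _ _⟩

/-- The main step. -/
theorem Nk_le_Lin {S : AddSubmonoid (Lau ℤ)} {T U : Lau ℤ} {N c : ℤ} (hN : N < c)
    (K : ℕ) (hTU : T = (1 - W) * U) (hlo : Lo 0 U) (hhi : Hi N U)
    (h1 : ∀ i j : ℕ, Ell ^ i * geo (j + 1) ∈ S)
    (h2 : ∀ i j : ℕ, Ell ^ i * geo (j + 1) * geo (j + 1) ∈ S) (i : ℕ) :
    Nk i ≤ Lin S T c K := by
  have hloT : Lo 0 T := by rw [hTU]; exact (lo_one.sub lo_W).mul0 hlo
  induction i with
  | zero =>
    have : Nk 0 = ⊥ := by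
      unfold Nk
      rw [AddSubgroup.closure_eq_bot_iff]
      rintro f ⟨a, b, h, _⟩
      exact absurd h (Nat.not_lt_zero a)
    rw [this]
    exact bot_le
  | succ i ih =>
    -- the relation
    have key : EqW c K (T * ((∑ j ∈ Finset.range (K + 1), Ell ^ i * geo (j + 1)) +
        Ell ^ i * geo (K + 2) * geo (K + 2)))
        (T * ((Ell ^ i - qq i) * geo (K + 1) * ((K + 2 : ℕ) : Lau ℤ))) := by
      have e1 : (1 - W) * (∑ j ∈ Finset.range (K + 1), geo (j + 1) + geo (K + 2) * geo (K + 2)) =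
          ((K + 2 : ℕ) : Lau ℤ) - W ^ (K + 2) * geo (K + 2) := by
        have e2 : (1 - W) * ∑ j ∈ Finset.range (K + 1), geo (j + 1) =
            ((K + 1 : ℕ) : Lau ℤ) - W * geo (K + 1) := by
          rw [Finset.mul_sum, Finset.sum_congr rfl fun j _ => geo_mul (j + 1),
            Finset.sum_sub_distrib, Finset.sum_const, Finset.card_range, nsmul_one]
          congr 1
          unfold geo
          rw [Finset.mul_sum]
          exact Finset.sum_congr rfl fun j _ => by rw [pow_succ]; ring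
        have e3 : geo (K + 2) = 1 + W * geo (K + 1) := by
          unfold geo
          rw [Finset.sum_range_succ', Finset.mul_sum, pow_zero, add_comm]
          congr 1
          exact Finset.sum_congr rfl fun j _ => by rw [pow_succ]; ring
        have e4 := geo_mul (K + 2)
        rw [mul_add, e2, ← mul_assoc, e4]
        have e5 : W * geo (K + 1) = geo (K + 2) - 1 := by rw [e3]; ring
        rw [e5]
        push_cast
        ring
      have e6 : T * ((∑ j ∈ Finset.range (K + 1), Ell ^ i * geo (j + 1)) +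
          Ell ^ i * geo (K + 2) * geo (K + 2)) =
          U * Ell ^ i * ((K + 2 : ℕ) : Lau ℤ) + -(W ^ (K + 2) * (geo (K + 2) * U * Ell ^ i)) := by
        rw [← Finset.mul_sum, hTU]
        calc (1 - W) * U * (Ell ^ i * (∑ j ∈ Finset.range (K + 1), geo (j + 1)) +
            Ell ^ i * geo (K + 2) * geo (K + 2)) =
            U * Ell ^ i * ((1 - W) * (∑ j ∈ Finset.range (K + 1), geo (j + 1) +
              geo (K + 2) * geo (K + 2))) := by ring
          _ = _ := by rw [e1]; ring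
      have e7 : EqW c K (T * ((∑ j ∈ Finset.range (K + 1), Ell ^ i * geo (j + 1)) +
          Ell ^ i * geo (K + 2) * geo (K + 2))) (U * Ell ^ i * ((K + 2 : ℕ) : Lau ℤ)) := by
        refine eqW_of_lo (a := ((K + 2 : ℕ) : ℤ)) (by push_cast; omega) ?_ e6
        have := (lo_W_pow (K + 2)).mul (((lo_geo (K + 2)).mul0 hlo).mul0 (lo_ell.pow i))
        rw [add_zero] at this
        exact this.neg
      refine e7.trans ?_
      have e8 : U * Ell ^ i * ((K + 2 : ℕ) : Lau ℤ) =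
          U * qq i * ((K + 2 : ℕ) : Lau ℤ) + U * (Ell ^ i - qq i) * ((K + 2 : ℕ) : Lau ℤ) := by ring
      have e9 : EqW c K (U * qq i * ((K + 2 : ℕ) : Lau ℤ)) 0 := by
        intro p q a b c' d
        rw [mul_comm, ← nsmul_eq_mul, cf_nsmul, win_qq hhi hN K i p q a b c' d, cf_zero, mul_zero]
      have e10 : U = T * geo (K + 1) + W ^ (K + 1) * U := by
        have := geo_mul (K + 1)
        rw [hTU]
        calc U = (1 - W ^ (K + 1)) * U + W ^ (K + 1) * U := by ring
          _ = (1 - W) * geo (K + 1) * U + W ^ (K + 1) * U := by rw [this]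
          _ = _ := by ring
      have hloQ : Lo 0 (Ell ^ i - qq i) := by
        refine (lo_ell.pow i).sub ?_
        unfold qq
        split_ifs
        · exact lo_one
        · unfold pp
          exact ((lo_mon (by norm_num) le_rfl).neg.pow i).add
            ((lo_mon le_rfl (by norm_num)).neg.pow i)
      have hloc : Lo 0 ((K + 2 : ℕ) : Lau ℤ) := by
        rw [← nsmul_one]
        intro p q h
        rw [cf_nsmul, lo_one p q h, mul_zero]
      have e11 : EqW c K (U * (Ell ^ i - qq i) * ((K + 2 : ℕ) : Lau ℤ))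
          (T * ((Ell ^ i - qq i) * geo (K + 1) * ((K + 2 : ℕ) : Lau ℤ))) := by
        refine eqW_of_lo (a := ((K + 1 : ℕ) : ℤ))
          (h := W ^ (K + 1) * (U * (Ell ^ i - qq i) * ((K + 2 : ℕ) : Lau ℤ))) (by push_cast; omega) ?_ ?_
        · have := (lo_W_pow (K + 1)).mul ((hlo.mul0 hloQ).mul0 hloc)
          rwa [add_zero] at this
        · conv_lhs => rw [e10]
          ring
      rw [e8]
      have := e9.add e11
      rwa [zero_add] at this
    have hz : -((Ell ^ i - qq i) * geo (K + 1) * ((K + 2 : ℕ) : Lau ℤ)) ∈ Re S T c K := by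
      refine (ih ?_).2
      have := Nk.mul_geo (qq_mem i) (K + 1)
      rw [mul_comm, ← nsmul_eq_mul]
      exact nsmul_mem this _
    have hP : ∀ j < K + 1, Ell ^ i * geo (j + 1) ∈ Lin S T c K := by
      intro j hj
      refine ⟨mem_Re (h1 i j), ?_⟩
      have h3 : (∑ j' ∈ (Finset.range (K + 1)).erase j, Ell ^ i * geo (j' + 1)) +
          Ell ^ i * geo (K + 2) * geo (K + 2) +
          -((Ell ^ i - qq i) * geo (K + 1) * ((K + 2 : ℕ) : Lau ℤ)) ∈ Re S T c K :=
        add_mem (add_mem (sum_mem fun j' _ => mem_Re (h1 i j')) (mem_Re (h2 i (K + 1)))) hz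
      refine Re.congr h3 ?_
      have h4 : ∑ j' ∈ Finset.range (K + 1), Ell ^ i * geo (j' + 1) =
          Ell ^ i * geo (j + 1) + ∑ j' ∈ (Finset.range (K + 1)).erase j, Ell ^ i * geo (j' + 1) :=
        (Finset.add_sum_erase _ _ (Finset.mem_range.mpr hj)).symm
      have h5 := (key.sub (EqW.refl c K (T * ((Ell ^ i - qq i) * geo (K + 1) * ((K + 2 : ℕ) : Lau ℤ)))))
      rw [h4] at h5
      have h6 := h5.add (EqW.refl c K (T * -(Ell ^ i * geo (j + 1))))
      have h7 : T * ((Ell ^ i - qq i) * geo (K + 1) * ((K + 2 : ℕ) : Lau ℤ)) -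
          T * ((Ell ^ i - qq i) * geo (K + 1) * ((K + 2 : ℕ) : Lau ℤ)) +
          T * -(Ell ^ i * geo (j + 1)) = T * -(Ell ^ i * geo (j + 1)) := by ring
      rw [h7] at h6
      refine EqW.trans ?_ h6
      intro p q _ _ _ _
      congr 1
      ring
    have hW : ∀ j : ℕ, Ell ^ i * W ^ j ∈ Lin S T c K := by
      intro j
      rcases Nat.lt_or_ge j (K + 1) with hj | hj
      · rcases j with _ | j
        · have := hP 0 (by omega)
          have h3 : geo (0 + 1) = W ^ 0 := by unfold geo; simp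
          rwa [h3] at this
        · have h3 : Ell ^ i * W ^ (j + 1) = Ell ^ i * geo (j + 1 + 1) - Ell ^ i * geo (j + 1) := by
            rw [geo_succ (j + 1)]; ring
          rw [h3]
          exact sub_mem (hP (j + 1) hj) (hP j (by omega))
      · have h3 : EqW c K (T * 0) (T * (Ell ^ i * W ^ j)) := by
          intro p q _ _ h5 _
          have h4 := (lo_W_pow j).mul (hloT.mul0 (lo_ell.pow i))
          rw [add_zero] at h4
          have h6 : T * (Ell ^ i * W ^ j) = W ^ j * (T * Ell ^ i) := by ring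
          rw [h6, h4 p q (Or.inl (by omega)), mul_zero, cf_zero]
        have h3' : EqW c K (T * 0) (T * -(Ell ^ i * W ^ j)) := by
          have := h3.neg
          rw [mul_zero, neg_zero] at this
          rw [mul_zero, mul_neg]
          exact this
        exact ⟨Re.congr (zero_mem _) h3, Re.congr (zero_mem _) h3'⟩
    unfold Nk
    rw [AddSubgroup.closure_le]
    rintro f ⟨a, b, h, rfl⟩
    rcases Nat.lt_or_ge a i with h' | h'
    · exact ih (Nk.mem h' b)
    · have : a = i := by omega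
      subst this
      exact hW b

end Pool.Agent.H378.HN
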